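import Pool.Agent.H71.CZ.LinF

/-!
# Project CZ, block LIN, module Tra: from the relations over `ℤ_[p]` to the relations over `R`

`relP_of_id` : the relations for `R`, `φ : R → ℤ_[p]` and the preimage of `QP` under the change of coefficients `hn1 φ` follow from
the relations for `ℤ_[p]` and `QP`.
-/

set_option autoImplicit false

open Matrix

universe u v w

namespace Pool.Agent.H8.CZ

open Pool.Agent.H95.WH (K1 K1.mk K1.map K1.unit K1.map_unit FamSub FinSub)
open Pool.Agent.H71.FQ (HG HG.map)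
open Pool.Agent.H16.FU (HnK1 sy1 hn1 hn1_sy1)
open Pool.Agent.H16.KN (trc)
open Pool.Agent.H71.CZ (RelP)

theorem relP_of_id {p : ℕ} [hp : Fact p.Prime] {R : Type u} [CommRing R] (φ : R →+* ℤ_[p]) {G : Type v} [Group G] {n : ℕ}
    {QP : AddSubgroup (HnK1 ℤ_[p] G n)} (h : RelP p ℤ_[p] (RingHom.id ℤ_[p]) G n QP)
    {QR : AddSubgroup (HnK1 R G n)} (hQ : ∀ x ∈ QR, hn1 φ x ∈ QP) : RelP p R φ G n QR := by
  intro r C hC hcyc hcop _ v z hmem c hc hpc f hf e he
  have h1 : ∑ i, sy1 ⟨C i, hC i⟩ (K1.unit (jU φ (v i))) (z i) ∈ QP := by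
    have h2 := hQ _ hmem
    rw [map_sum] at h2
    rw [Finset.sum_congr rfl fun i _ => ?_]
    · exact h2
    · rw [hn1_sy1, K1.map_unit]
      rfl
  have h2 : ∀ i, MonoidAlgebra.mapRingHom (C i) (RingHom.id ℤ_[p])
      ((jU φ (v i) : (MonoidAlgebra ℤ_[p] (C i))ˣ) : MonoidAlgebra ℤ_[p] (C i)) =
      MonoidAlgebra.mapRingHom (C i) φ (v i : MonoidAlgebra R (C i)) := by
    intro i
    rw [MonoidAlgebra.mapRingHom_id]
    rfl
  obtain ⟨K, hK⟩ := h r C hC hcyc hcop (fun i => jU φ (v i)) z h1 c hc hpc f hf e (fun i => by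
    rw [h2]
    exact he i)
  simp only [h2] at hK
  exact ⟨K, hK⟩

end Pool.Agent.H8.CZ
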