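import Pool.Agent.H8.KL.Ap

/-!
# Project CZ, block LIN, module Ap: the vector space of sequences of `p`-adic approximations

`NilP p` : the sequences `a : ℕ → ℚ_[p]` with `‖a l‖ = O(p ^ (-l))`.
`ApP p` : the quotient `(ℕ → ℚ_[p]) ⧸ NilP p`, a vector space over `ℚ`.
`lgP p φ x` : the class of `l ↦ φ (x ^ p ^ l - 1) / p ^ l` for `x` in a ring and `φ` an additive map to `ℤ_[p]`.
-/

set_option autoImplicit false

universe u v w

namespace Pool.Agent.H8.CZ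

open Pool.Agent.H8.KL (One2 pow_one_add One2.pow_eq One2.mul One2.pow One2.one One2.map One2.inv)

variable (p : ℕ) [hp : Fact p.Prime]

theorem norm_pow_p (l : ℕ) : ‖((p : ℚ_[p]) ^ l)‖ = ((p : ℝ) ^ l)⁻¹ := by
  rw [norm_pow, Padic.norm_p, inv_pow]

theorem pos_p (l : ℕ) : (0 : ℝ) < (p : ℝ) ^ l := pow_pos (by exact_mod_cast hp.out.pos) l

/-- the sequences that tend to zero as fast as `p ^ l` -/
def NilP : Submodule ℚ (ℕ → ℚ_[p]) where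
  carrier := {a | ∃ C : ℝ, ∀ l, ‖a l‖ * (p : ℝ) ^ l ≤ C}
  add_mem' := by
    rintro a b ⟨K, hK⟩ ⟨K', hK'⟩
    refine ⟨K + K', fun l => ?_⟩
    have h1 : ‖(a + b) l‖ ≤ ‖a l‖ + ‖b l‖ := norm_add_le _ _
    have h2 := mul_le_mul_of_nonneg_right h1 (pos_p p l).le
    rw [add_mul] at h2
    linarith [hK l, hK' l]
  zero_mem' := ⟨0, fun l => by rw [Pi.zero_apply, norm_zero, zero_mul]⟩
  smul_mem' := by
    rintro q a ⟨K, hK⟩
    refine ⟨‖(q : ℚ_[p])‖ * K, fun l => ?_⟩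
    have h1 : ‖(q • a) l‖ = ‖(q : ℚ_[p])‖ * ‖a l‖ := by
      rw [Pi.smul_apply, Rat.smul_def, norm_mul]
    rw [h1, mul_assoc]
    exact mul_le_mul_of_nonneg_left (hK l) (norm_nonneg _)

theorem mem_NilP {a : ℕ → ℚ_[p]} : a ∈ NilP p ↔ ∃ C : ℝ, ∀ l, ‖a l‖ * (p : ℝ) ^ l ≤ C := Iff.rfl

/-- the quotient -/
abbrev ApP : Type := (ℕ → ℚ_[p]) ⧸ NilP p

/-- the class of a sequence -/
noncomputable def cP : (ℕ → ℚ_[p]) →ₗ[ℚ] ApP p := (NilP p).mkQ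

theorem cP_eq_zero {a : ℕ → ℚ_[p]} : cP p a = 0 ↔ a ∈ NilP p := Submodule.Quotient.mk_eq_zero _

variable {R : Type u} [Ring R] {S : Type v} [Ring S]

/-- the approximations of the logarithm -/
noncomputable def lgP (φ : R →+ ℤ_[p]) (x : R) : ApP p :=
  cP p fun l => ((φ (x ^ p ^ l - 1) : ℤ_[p]) : ℚ_[p]) / (p : ℚ_[p]) ^ l

theorem lgP_comp (f : R →+* S) (φ : S →+ ℤ_[p]) (x : R) :
    lgP p φ (f x) = lgP p (φ.comp f.toAddMonoidHom) x := by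
  have h : ∀ l, φ (f x ^ p ^ l - 1) = (φ.comp f.toAddMonoidHom) (x ^ p ^ l - 1) := by
    intro l
    change _ = φ (f (x ^ p ^ l - 1))
    rw [map_sub f, map_pow f, map_one f]
  unfold lgP
  simp only [h]

theorem map_pmulP (φ : R →+ ℤ_[p]) (e : ℕ) (x : R) :
    φ ((p : R) ^ e * x) = (p : ℤ_[p]) ^ e * φ x := by
  rw [← Nat.cast_pow, ← nsmul_eq_mul, map_nsmul, nsmul_eq_mul, Nat.cast_pow]

theorem lgP_one (φ : R →+ ℤ_[p]) : lgP p φ 1 = 0 := by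
  unfold lgP
  rw [cP_eq_zero]
  refine ⟨0, fun l => ?_⟩
  beta_reduce
  rw [one_pow, sub_self, map_zero, PadicInt.coe_zero, zero_div, norm_zero, zero_mul]

/-- **The logarithm is additive.** -/
theorem lgP_mul (φ : R →+ ℤ_[p]) {x y : R} (hx : One2 p x) (hy : One2 p y) (hxy : x * y = y * x) :
    lgP p φ (x * y) = lgP p φ x + lgP p φ y := by
  unfold lgP
  rw [← map_add, ← sub_eq_zero, ← map_sub, cP_eq_zero]
  refine ⟨1, fun l => ?_⟩
  obtain ⟨a, ha⟩ := hx.pow_eq p l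
  obtain ⟨b, hb⟩ := hy.pow_eq p l
  have h1 : (x * y) ^ p ^ l = x ^ p ^ l * y ^ p ^ l := (show Commute x y from hxy).mul_pow _
  have hcom : ∀ (e : ℕ) (x : R), (p : R) ^ e * x = x * (p : R) ^ e := fun e x =>
    ((Nat.cast_commute p x).pow_left e).eq
  have h2 : (x * y) ^ p ^ l - 1 - ((x ^ p ^ l - 1) + (y ^ p ^ l - 1)) =
      (p : R) ^ (l + l + 4) * (a * b) := by
    rw [h1, ha, hb]
    have h3 : (p : R) ^ (2 + l) * a * ((p : R) ^ (2 + l) * b) = (p : R) ^ (l + l + 4) * (a * b) := by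
      calc (p : R) ^ (2 + l) * a * ((p : R) ^ (2 + l) * b)
          = (p : R) ^ (2 + l) * (a * (p : R) ^ (2 + l)) * b := by simp only [mul_assoc]
        _ = (p : R) ^ (2 + l) * ((p : R) ^ (2 + l) * a) * b := by rw [← hcom _ a]
        _ = (p : R) ^ (2 + l) * (p : R) ^ (2 + l) * (a * b) := by simp only [mul_assoc]
        _ = _ := by
          rw [← pow_add]
          congr 2
          omega
    rw [← h3, mul_add, add_mul, one_mul, mul_one, add_mul, one_mul]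
    abel
  have h4 := congrArg φ h2
  rw [map_pmulP, map_sub, map_add] at h4
  have hp0 : (p : ℚ_[p]) ≠ 0 := Nat.cast_ne_zero.2 hp.out.ne_zero
  have h5 : ((φ ((x * y) ^ p ^ l - 1) : ℤ_[p]) : ℚ_[p]) - (((φ (x ^ p ^ l - 1) : ℤ_[p]) : ℚ_[p]) +
      ((φ (y ^ p ^ l - 1) : ℤ_[p]) : ℚ_[p])) = (p : ℚ_[p]) ^ (l + l + 4) * ((φ (a * b) : ℤ_[p]) : ℚ_[p]) := by
    have h6 := congrArg (fun t : ℤ_[p] => (t : ℚ_[p])) h4
    push_cast at h6
    exact h6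
  have h7 : ((φ ((x * y) ^ p ^ l - 1) : ℤ_[p]) : ℚ_[p]) / (p : ℚ_[p]) ^ l -
      (((φ (x ^ p ^ l - 1) : ℤ_[p]) : ℚ_[p]) / (p : ℚ_[p]) ^ l +
        ((φ (y ^ p ^ l - 1) : ℤ_[p]) : ℚ_[p]) / (p : ℚ_[p]) ^ l) =
      (p : ℚ_[p]) ^ l * ((p : ℚ_[p]) ^ 4 * ((φ (a * b) : ℤ_[p]) : ℚ_[p])) := by
    rw [← add_div, ← sub_div, h5, pow_add, pow_add]
    field_simp
  change ‖((φ ((x * y) ^ p ^ l - 1) : ℤ_[p]) : ℚ_[p]) / (p : ℚ_[p]) ^ l -
      (((φ (x ^ p ^ l - 1) : ℤ_[p]) : ℚ_[p]) / (p : ℚ_[p]) ^ l +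
        ((φ (y ^ p ^ l - 1) : ℤ_[p]) : ℚ_[p]) / (p : ℚ_[p]) ^ l)‖ * (p : ℝ) ^ l ≤ 1
  rw [h7, norm_mul, norm_pow_p, mul_comm, ← mul_assoc, mul_inv_cancel₀ (pos_p p l).ne', one_mul]
  have h8 : (p : ℚ_[p]) ^ 4 * ((φ (a * b) : ℤ_[p]) : ℚ_[p]) = (((p : ℤ_[p]) ^ 4 * φ (a * b) : ℤ_[p]) : ℚ_[p]) := by
    push_cast
    rfl
  rw [h8]
  exact PadicInt.norm_le_one _

theorem lgP_pow (hR : ∀ x y : R, x * y = y * x) (φ : R →+ ℤ_[p]) {x : R} (hx : One2 p x) (n : ℕ) :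
    lgP p φ (x ^ n) = n • lgP p φ x := by
  induction n with
  | zero => rw [pow_zero, lgP_one, zero_smul]
  | succ n ih => rw [pow_succ, lgP_mul p φ (hx.pow p n) hx (hR _ _), ih, succ_nsmul]

/-- **Detection.** -/
theorem lgP_detect {I : Type w} (φ : I → R →+ ℤ_[p])
    (hφ : ∀ a : R, (∀ i, (p : ℤ_[p]) ∣ φ i a) → ∃ b, a = p * b) {x : R} (hx : One2 p x)
    (h : ∀ i, lgP p (φ i) x = 0) (k : ℕ) : ∃ a : R, x = 1 + (p : R) ^ (2 + k) * a := by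
  induction k with
  | zero => exact hx
  | succ k ih =>
    obtain ⟨a, ha⟩ := ih
    have hdiv : ∀ i, (p : ℤ_[p]) ∣ φ i a := by
      intro i
      have h1 := h i
      unfold lgP at h1
      rw [cP_eq_zero] at h1
      obtain ⟨C, hC⟩ := h1
      obtain ⟨l, hl⟩ : ∃ l : ℕ, C * (p : ℝ) ^ (2 + k) < (p : ℝ) ^ l :=
        pow_unbounded_of_one_lt _ (by exact_mod_cast hp.out.one_lt)
      obtain ⟨b, hb⟩ := pow_one_add p (Nat.le_add_right 2 k) a l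
      have h2 := hC l
      beta_reduce at h2
      rw [ha, hb, add_sub_cancel_left, map_pmulP] at h2
      have hp0 : (p : ℚ_[p]) ≠ 0 := Nat.cast_ne_zero.2 hp.out.ne_zero
      have h3 : (((p : ℤ_[p]) ^ (2 + k + l) * φ i (a + (p : R) * b) : ℤ_[p]) : ℚ_[p]) / (p : ℚ_[p]) ^ l =
          (p : ℚ_[p]) ^ (2 + k) * ((φ i (a + (p : R) * b) : ℤ_[p]) : ℚ_[p]) := by
        push_cast
        rw [pow_add (p : ℚ_[p]) (2 + k) l]
        field_simp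
      rw [h3, norm_mul, norm_pow_p] at h2
      have h4 : ‖φ i (a + (p : R) * b)‖ < 1 := by
        rw [PadicInt.norm_def]
        have h5 : (0 : ℝ) < (p : ℝ) ^ (2 + k) := pos_p p _
        have h6 : (0 : ℝ) < (p : ℝ) ^ l := pos_p p _
        rw [inv_mul_eq_div, div_mul_eq_mul_div, div_le_iff₀ h5] at h2
        by_contra hcon
        push Not at hcon
        nlinarith
      rw [PadicInt.norm_lt_one_iff_dvd, map_add] at h4
      have h5 : φ i ((p : R) * b) = p * φ i b := by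
        have := map_pmulP p (φ i) 1 b
        rwa [pow_one, pow_one] at this
      rw [h5] at h4
      exact (dvd_add_left (Dvd.intro _ rfl)).1 h4
    obtain ⟨b, hb⟩ := hφ a hdiv
    refine ⟨b, ?_⟩
    rw [ha, hb, ← mul_assoc, ← pow_succ]
    rfl

end Pool.Agent.H8.CZ
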