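import Pool.Agent.H8.CZ.Prim
import Pool.Agent.H8.KL.ClsT
import Pool.Agent.H8.KL.LinK1

/-!
# Project CZ, block LIN, module Cls: the linear algebra of the `K₁`-part with coefficients `B`, `j : B → ℤ_[p]` injective

The versions of `clsS_tor`, `relS_TU`, `linS` for a system of coefficients `S : CoefR B G`, all cyclic subgroups of order prime
to `p`.
-/

set_option autoImplicit false
set_option linter.unusedSectionVars false

open Matrix

universe u v w w' w''

namespace Pool.Agent.H8.CZ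

open Pool.Agent.H95.WH (K1 K1.mk K1.map K1.unit K1.map_unit K1.unit_mul FamSub conjHom FinSub uH
  conjHom_injective unit_pow)
open Pool.Agent.H16.KN (PSepA)
open Pool.Agent.H8.KL (Cj CI finite_hom card_CI inv_mem_of_card zpowers_eq_of_card orderOf_conj' elim_sep Tor One2 unit_one')

section THJ

variable (p : ℕ) [hp : Fact p.Prime] {B : Type u} [CommRing B] (j : B →+* ℤ_[p])

/-- the logarithm as a homomorphism -/
noncomputable def THJ {C : Type w} [Group C] [Finite C] (hC : ∀ a b : C, a * b = b * a) :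
    Additive (MonoidAlgebra B C)ˣ →+ (C → ApP p) where
  toFun u d := TJ p j u.toMul d
  map_zero' := by
    funext d
    exact TJ_one p j hC d
  map_add' u v := by
    funext d
    exact TJ_mul p j hC _ _ d

end THJ

section Cls

variable {p : ℕ} [hp : Fact p.Prime] {B : Type u} [CommRing B] {j : B →+* ℤ_[p]} {G : Type v} [Group G] {S : CoefR B G}

/-- transport of a symbol by a conjugation -/
theorem valR_eq (t : TrR S p) {C₀ : Subgroup G} (hC₀ : FinSub C₀) (x : G)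
    (h2 : ∀ y ∈ C₀, x * y * x⁻¹ ∈ t.C) (h1 : ∀ y ∈ t.C, x⁻¹ * y * x⁻¹⁻¹ ∈ C₀) :
    t.val = S.sy ⟨C₀, hC₀⟩ (K1.unit (mUA (conjHom x⁻¹ t.C C₀ h1) t.u))
      (S.tr x C₀ t.C h2 t.z) := by
  have h3 := S.sy_conj ⟨C₀, hC₀⟩ ⟨t.C, t.fin⟩ x h2
    (K1.unit (mUA (conjHom x⁻¹ t.C C₀ h1) t.u)) t.z
  refine Eq.trans ?_ h3
  rw [K1.map_unit]
  unfold TrR.val
  congr 3
  have h4 : (conjHom x C₀ t.C h2).comp (conjHom x⁻¹ t.C C₀ h1) = MonoidHom.id t.C := by
    ext y
    change x * (x⁻¹ * (y : G) * x⁻¹⁻¹) * x⁻¹ = y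
    group
  apply Units.ext
  change (t.u : MonoidAlgebra B t.C) = (MonoidAlgebra.mapDomainRingHom B (conjHom x C₀ t.C h2))
    ((MonoidAlgebra.mapDomainRingHom B (conjHom x⁻¹ t.C C₀ h1)) t.u)
  rw [← RingHom.comp_apply, ← MonoidAlgebra.mapDomainRingHom_comp, h4,
    MonoidAlgebra.mapDomainRingHom_id]
  rfl

open scoped Classical in
theorem clsR_tor (hj : Function.Injective j) {J : Type} [Fintype J] (t : J → TrR S p)
    [∀ i, Fintype (t i).C] (hprim : ∀ i, PrimJ p j (t i).C (t i).u)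
    (hrel : ∀ c : G, IsOfFinOrder c → ¬ p ∣ orderOf c →
      ∀ f : S.N c →+ ℚ, (∀ y, ¬ p ∣ (f y).den) →
        ∑ i, ∑ d : (t i).C, f (S.trc c (t i).C d (t i).z) • TJ p j (t i).u d = 0)
    (C₀ : Subgroup G) (hf : Finite C₀) (hcyc : IsCyclic C₀) (hpC : ¬ p ∣ Nat.card C₀)
    (hsep : PSepA p (S.M C₀)) :
    ∃ m : ℤ, m ≠ 0 ∧ m • ∑ i : {i // Cj (t i).C C₀}, (t i.1).val = 0 := by
  have hfin : ∀ i, Finite (t i).C := fun i => (t i).fin
  have hcom : ∀ a b : C₀, a * b = b * a := (IsCyclic.commGroup (α := C₀)).mul_comm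
  let _ : ∀ i, Fintype {φ : C₀ →* (t i).C // CI C₀ (t i).C φ} := fun i => Fintype.ofFinite _
  let _ : Fintype {φ : C₀ →* C₀ // CI C₀ C₀ φ} := Fintype.ofFinite _
  let _ : Fintype C₀ := Fintype.ofFinite _
  let _ : AddCommGroup (Additive (MonoidAlgebra B C₀)ˣ) :=
    { (inferInstance : AddGroup (Additive (MonoidAlgebra B C₀)ˣ)) with
      add_comm := fun a b => Units.ext (ma_commA hcom _ _) }
  -- the elements that give the conjugations
  have hx : ∀ (i : {i // Cj (t i).C C₀}) (φ : {φ : C₀ →* (t i.1).C // CI C₀ (t i.1).C φ}),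
      ∃ x : G, (∀ y : C₀, (φ.1 y : G) = x * y * x⁻¹) ∧ (∀ y ∈ C₀, x * y * x⁻¹ ∈ (t i.1).C) ∧
        (∀ y ∈ (t i.1).C, x⁻¹ * y * x⁻¹⁻¹ ∈ C₀) := by
    intro i φ
    obtain ⟨x, hx⟩ := φ.2
    have h2 : ∀ y ∈ C₀, x * y * x⁻¹ ∈ (t i.1).C := by
      intro y hy
      have h3 := hx ⟨y, hy⟩
      rw [← h3]
      exact (φ.1 ⟨y, hy⟩).2
    exact ⟨x, hx, h2, inv_mem_of_card i.2.card_eq h2⟩
  choose x hx1 hx2 hx3 using hx
  -- the elimination
  let I : Type v := Σ i : {i // Cj (t i).C C₀}, {φ : C₀ →* (t i.1).C // CI C₀ (t i.1).C φ}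
  let ue : I → Additive (MonoidAlgebra B C₀)ˣ := fun i =>
    Additive.ofMul (mUA (conjHom (x i.1 i.2)⁻¹ (t i.1.1).C C₀ (hx3 i.1 i.2)) (t i.1.1).u)
  let ze : I → S.M C₀ := fun i => S.tr (x i.1 i.2) C₀ (t i.1.1).C (hx2 i.1 i.2) (t i.1.1).z
  have key : ∀ f : S.M C₀ →+ ℚ, (∀ y, ¬ p ∣ (f y).den) →
      ∑ i : I, f (ze i) • THJ p j hcom (ue i) = 0 := by
    intro f hfp
    funext e
    rw [Finset.sum_apply]
    -- the value of the logarithm at `e`
    have hval : ∀ i : I, (f (ze i) • THJ p j hcom (ue i)) e =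
        f (ze i) • TJ p j (t i.1.1).u (i.2.1 e) := by
      intro i
      rw [Pi.smul_apply]
      congr 1
      have h4 := TJ_map p j (t i.1.1).comm hcom (conjHom (x i.1 i.2)⁻¹ (t i.1.1).C C₀ (hx3 i.1 i.2))
        (conjHom_injective _ _ _ _) (t i.1.1).u (i.2.1 e)
      have h5 : conjHom (x i.1 i.2)⁻¹ (t i.1.1).C C₀ (hx3 i.1 i.2) (i.2.1 e) = e := by
        apply Subtype.ext
        change (x i.1 i.2)⁻¹ * (i.2.1 e : G) * (x i.1 i.2)⁻¹⁻¹ = e
        rw [hx1 i.1 i.2 e]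
        group
      rw [h5] at h4
      exact h4
    rw [Finset.sum_congr rfl fun i _ => hval i, Pi.zero_apply, Fintype.sum_sigma]
    by_cases he : Subgroup.zpowers (e : G) = C₀
    · -- a generator
      have hoe : orderOf (e : G) = Nat.card C₀ := by rw [← Nat.card_zpowers, he]
      have hfo : IsOfFinOrder (e : G) := by
        rw [← orderOf_pos_iff, hoe]
        exact Nat.card_pos
      have h4 := hrel e hfo (hoe ▸ hpC) (f.comp (S.kap C₀ e he)) fun y => hfp _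
      -- the subgroups that are not conjugate to `C₀` do not contribute
      have h5 : ∀ i, ¬ Cj (t i).C C₀ → ∑ d : (t i).C,
          (f.comp (S.kap C₀ e he)) (S.trc (e : G) (t i).C d (t i).z) •
            TJ p j (t i).u d = 0 := by
        intro i hi
        refine Finset.sum_eq_zero fun d _ => ?_
        by_cases hd : IsConj (e : G) (d : G)
        · rw [hprim i d, smul_zero]
          intro hdd
          apply hi
          obtain ⟨y, hy⟩ := isConj_iff.1 hd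
          refine ⟨y⁻¹, ?_, ?_⟩
          · intro a ha
            rw [← hdd] at ha
            obtain ⟨i, rfl⟩ := Subgroup.mem_zpowers_iff.1 ha
            rw [← conj_zpow, ← hy]
            have h6 : y⁻¹ * (y * (e : G) * y⁻¹) * y⁻¹⁻¹ = e := by group
            rw [h6]
            exact C₀.zpow_mem e.2 i
          · intro a ha
            rw [← he] at ha
            obtain ⟨k, rfl⟩ := Subgroup.mem_zpowers_iff.1 ha
            rw [inv_inv, ← conj_zpow, hy]
            exact (t i).C.zpow_mem d.2 k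
        · rw [S.trc_of_not hd]
          simp
      have h6 := Fintype.sum_subtype_add_sum_subtype (fun i => Cj (t i).C C₀) fun i =>
        ∑ d : (t i).C, (f.comp (S.kap C₀ e he)) (S.trc (e : G) (t i).C d (t i).z) •
          TJ p j (t i).u d
      rw [h4, Fintype.sum_eq_zero (fun i : {i // ¬ Cj (t i).C C₀} => _) fun i => h5 i.1 i.2,
        add_zero] at h6
      rw [← h6]
      refine Finset.sum_congr rfl fun i _ => ?_
      refine Fintype.sum_of_injective
        (fun φ : {φ : C₀ →* (t i.1).C // CI C₀ (t i.1).C φ} => φ.1 e) ?_ _ _ ?_ ?_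
      · -- injectivity
        intro φ ψ hφψ
        apply Subtype.ext
        ext y
        have h7 : y ∈ Subgroup.zpowers e := by
          have h8 : (y : G) ∈ Subgroup.zpowers (e : G) := by
            rw [he]
            exact y.2
          obtain ⟨i, hi⟩ := Subgroup.mem_zpowers_iff.1 h8
          exact Subgroup.mem_zpowers_iff.2 ⟨i, Subtype.ext hi⟩
        obtain ⟨k, rfl⟩ := Subgroup.mem_zpowers_iff.1 h7
        rw [map_zpow, map_zpow]
        have h9 : φ.1 e = ψ.1 e := hφψ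
        rw [h9]
      · -- the elements that are not conjugate to `e`
        intro d hd
        rw [S.trc_of_not]
        · simp
        · intro hde
          apply hd
          obtain ⟨y, hy⟩ := isConj_iff.1 hde
          have h7 : ∀ a ∈ C₀, y * a * y⁻¹ ∈ (t i.1).C := by
            intro a ha
            rw [← he] at ha
            obtain ⟨k, rfl⟩ := Subgroup.mem_zpowers_iff.1 ha
            rw [← conj_zpow, hy]
            exact (t i.1).C.zpow_mem d.2 k
          exact ⟨⟨conjHom y C₀ (t i.1).C h7, y, fun _ => rfl⟩, Subtype.ext hy⟩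
      · -- the values
        intro φ
        congr 1
        change f (ze ⟨i, φ⟩) = f (S.kap C₀ e he _)
        congr 1
        exact (S.kap_trc C₀ e he (t i.1).C (x i φ) (hx2 i φ) (φ.1 e) (hx1 i φ e).symm
          (t i.1).z).symm
    · -- not a generator
      refine Finset.sum_eq_zero fun i _ => Finset.sum_eq_zero fun φ _ => ?_
      rw [hprim i.1 (φ.1 e), smul_zero]
      intro h4
      apply he
      apply zpowers_eq_of_card e.2
      rw [← i.2.card_eq, ← h4, Nat.card_zpowers, hx1 i φ e, orderOf_conj']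
  let β : Additive (MonoidAlgebra B C₀)ˣ →+ S.M C₀ →+ S.E :=
    (S.sy ⟨C₀, hf⟩).comp (uH (MonoidAlgebra B C₀))
  let T : Additive (MonoidAlgebra B C₀)ˣ →+ (C₀ → ApP p) := THJ p j hcom
  obtain ⟨m, hm, h⟩ := elim_sep (V := C₀ → ApP p) β T (fun u hu => by
      obtain ⟨m, hm, h⟩ := TJ_detect p j hj hcom u.toMul fun d => congrFun hu d
      exact ⟨m, by exact_mod_cast hm.ne', by
        rw [natCast_zsmul]
        exact h⟩) hsep ue ze key
  refine ⟨m * (Nat.card {φ : C₀ →* C₀ // CI C₀ C₀ φ} : ℤ), mul_ne_zero hm ?_, ?_⟩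
  · have : Nonempty {φ : C₀ →* C₀ // CI C₀ C₀ φ} := ⟨⟨MonoidHom.id _, 1, fun y => by
      rw [one_mul, inv_one, mul_one]
      rfl⟩⟩
    exact_mod_cast Nat.card_pos.ne'
  · rw [mul_smul, ← h, natCast_zsmul, Finset.smul_sum]
    congr 1
    rw [Fintype.sum_sigma]
    refine Finset.sum_congr rfl fun i _ => ?_
    rw [← card_CI i.2, Nat.card_eq_fintype_card, ← Finset.card_univ, ← Finset.sum_const]
    refine Finset.sum_congr rfl fun φ _ => ?_
    exact valR_eq (t i.1) hf (x i φ) (hx2 i φ) (hx3 i φ)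

end Cls

section Main

variable {p : ℕ} [hp : Fact p.Prime] {B : Type u} [CommRing B] {j : B →+* ℤ_[p]} {G : Type v} [Group G] {S : CoefR B G}

theorem oneN_mul {R : Type*} [Ring R] (p n : ℕ) {x y : R} (hx : ∃ a : R, x = 1 + (p : R) ^ n * a)
    (hy : ∃ a : R, y = 1 + (p : R) ^ n * a) : ∃ a : R, x * y = 1 + (p : R) ^ n * a := by
  obtain ⟨a, rfl⟩ := hx
  obtain ⟨b, rfl⟩ := hy
  refine ⟨a + b + a * ((p : R) ^ n * b), ?_⟩
  rw [mul_add, mul_add ((p : R) ^ n), mul_add ((p : R) ^ n), mul_one, add_mul, one_mul]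
  rw [mul_assoc ((p : R) ^ n) a]
  abel

theorem oneN_pow {R : Type*} [Ring R] (p n : ℕ) {x : R} (hx : ∃ a : R, x = 1 + (p : R) ^ n * a) (k : ℕ) :
    ∃ a : R, x ^ k = 1 + (p : R) ^ n * a := by
  induction k with
  | zero => exact ⟨0, by simp⟩
  | succ k ih => rw [pow_succ]; exact oneN_mul p n ih hx

variable (j S) in
/-- the relations of the functionals, see the header -/
def HasRelR (P : S.E → Prop) : Prop :=
  ∀ (n : ℕ) (C : Fin n → Subgroup G) (hC : ∀ i, Finite (C i)),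
    (∀ i, IsCyclic (C i)) → (∀ i, ¬ p ∣ Nat.card (C i)) → ∀ [∀ i, Fintype (C i)] (u : ∀ i, (MonoidAlgebra B (C i))ˣ)
    (z : ∀ i, S.M (C i)),
    P (∑ i, S.sy ⟨C i, hC i⟩ (K1.unit (u i)) (z i)) →
    ∀ c : G, IsOfFinOrder c → ¬ p ∣ orderOf c →
    ∀ f : S.N c →+ ℚ, (∀ y, ¬ p ∣ (f y).den) →
    ∀ e : ℕ, (∀ i, ∃ a : MonoidAlgebra ℤ_[p] (C i),
          (MonoidAlgebra.mapRingHom (C i) j (u i : MonoidAlgebra B (C i))) ^ e =
            1 + (p : MonoidAlgebra ℤ_[p] (C i)) ^ 4 * a) →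
      ∃ K : ℕ, ∀ l : ℕ, ∃ y : ℤ_[p],
        (p : ℚ_[p]) ^ K * (∑ i, ∑ d : C i, ((f (S.trc c (C i) d (z i)) : ℚ) : ℚ_[p]) *
          ((((MonoidAlgebra.mapRingHom (C i) j (u i : MonoidAlgebra B (C i))) ^ (e * p ^ l) -
            1).coeff d : ℤ_[p]) : ℚ_[p])) = (p : ℚ_[p]) ^ (2 * l) * (y : ℚ_[p])

/-- the relations in terms of the logarithm -/
theorem relR_TJ {P : S.E → Prop} (hQ : HasRelR j S P)
    {n : ℕ} (t : Fin n → TrR S p) [∀ i, Fintype (t i).C] (ht : P (∑ i, (t i).val)) (c : G) (hc : IsOfFinOrder c)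
    (hpc : ¬ p ∣ orderOf c) (f : S.N c →+ ℚ) (hf : ∀ y, ¬ p ∣ (f y).den) :
    ∑ i, ∑ d : (t i).C, f (S.trc c (t i).C d (t i).z) • TJ p j (t i).u d = 0 := by
  classical
  have hfin : ∀ i, Finite (t i).C := fun i => (t i).fin
  have h1 : ∀ i, ∃ (m : ℕ) (a : MonoidAlgebra ℤ_[p] (t i).C), 0 < m ∧
      ((jU j (t i).u ^ m : (MonoidAlgebra ℤ_[p] (t i).C)ˣ) : MonoidAlgebra ℤ_[p] (t i).C) =
        1 + (p : MonoidAlgebra ℤ_[p] (t i).C) ^ 4 * a := by
    intro i
    obtain ⟨m, a, hm, h⟩ := exists_pow_eqP p (n := p ^ 4) (pow_ne_zero 4 hp.out.ne_zero) (jU j (t i).u)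
    refine ⟨m, a, hm, ?_⟩
    rw [h]
    push_cast
    rfl
  choose m a hm h1 using h1
  obtain ⟨M, hM⟩ : ∃ M, M = ∏ i, m i := ⟨_, rfl⟩
  have hM0 : 0 < M := by
    rw [hM]
    exact Finset.prod_pos fun i _ => hm i
  have h2 : ∀ i, ∃ a : MonoidAlgebra ℤ_[p] (t i).C,
      ((jU j (t i).u ^ M : (MonoidAlgebra ℤ_[p] (t i).C)ˣ) : MonoidAlgebra ℤ_[p] (t i).C) =
        1 + (p : MonoidAlgebra ℤ_[p] (t i).C) ^ 4 * a := by
    intro i
    obtain ⟨q, hq⟩ : m i ∣ M := by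
      rw [hM]
      exact Finset.dvd_prod_of_mem _ (Finset.mem_univ i)
    rw [hq, pow_mul, Units.val_pow_eq_pow_val]
    exact oneN_pow p 4 ⟨a i, h1 i⟩ q
  have h2' : ∀ i, One2 p ((jU j (t i).u ^ M : (MonoidAlgebra ℤ_[p] (t i).C)ˣ) :
      MonoidAlgebra ℤ_[p] (t i).C) := by
    intro i
    obtain ⟨a, ha⟩ := h2 i
    refine ⟨(p : MonoidAlgebra ℤ_[p] (t i).C) ^ 2 * a, ?_⟩
    rw [ha, ← mul_assoc, ← pow_add]
  obtain ⟨K, hK⟩ := hQ n (fun i => (t i).C) (fun i => (t i).fin) (fun i => (t i).cyc) (fun i => (t i).cop)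
    (fun i => (t i).u) (fun i => (t i).z) ht c hc hpc f hf M (fun i => by
      obtain ⟨a, ha⟩ := h2 i
      exact ⟨a, by rw [← ha, Units.val_pow_eq_pow_val, coe_jU]⟩)
  have hp0 : (p : ℚ_[p]) ≠ 0 := Nat.cast_ne_zero.2 hp.out.ne_zero
  have h4 : ∑ i, ∑ d : (t i).C, f (S.trc c (t i).C d (t i).z) •
      lgP p (cfA d) ((jU j (t i).u ^ M : (MonoidAlgebra ℤ_[p] (t i).C)ˣ) : MonoidAlgebra ℤ_[p] (t i).C) = 0 := by
    unfold lgP
    simp only [← map_smul, ← map_sum]
    rw [cP_eq_zero, mem_NilP]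
    refine ⟨(p : ℝ) ^ K, fun l => ?_⟩
    obtain ⟨y, hy⟩ := hK l
    have h6 : (∑ i, ∑ d : (t i).C, f (S.trc c (t i).C d (t i).z) • fun l : ℕ =>
        ((cfA d (((jU j (t i).u ^ M : (MonoidAlgebra ℤ_[p] (t i).C)ˣ) : MonoidAlgebra ℤ_[p] (t i).C) ^ p ^ l - 1) :
          ℤ_[p]) : ℚ_[p]) / (p : ℚ_[p]) ^ l) l = (∑ i, ∑ d : (t i).C, ((f (S.trc c (t i).C d (t i).z) : ℚ) : ℚ_[p]) *
          ((((MonoidAlgebra.mapRingHom (t i).C j ((t i).u : MonoidAlgebra B (t i).C)) ^ (M * p ^ l) -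
            1).coeff d : ℤ_[p]) : ℚ_[p])) / (p : ℚ_[p]) ^ l := by
      rw [Finset.sum_apply, Finset.sum_div]
      refine Finset.sum_congr rfl fun i _ => ?_
      rw [Finset.sum_apply, Finset.sum_div]
      refine Finset.sum_congr rfl fun d _ => ?_
      rw [Pi.smul_apply, Rat.smul_def, mul_div_assoc, Units.val_pow_eq_pow_val, coe_jU, ← pow_mul]
      rfl
    rw [h6]
    have h7 : (∑ i, ∑ d : (t i).C, ((f (S.trc c (t i).C d (t i).z) : ℚ) : ℚ_[p]) *
          ((((MonoidAlgebra.mapRingHom (t i).C j ((t i).u : MonoidAlgebra B (t i).C)) ^ (M * p ^ l) -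
            1).coeff d : ℤ_[p]) : ℚ_[p])) / (p : ℚ_[p]) ^ l = (p : ℚ_[p]) ^ l * ((y : ℚ_[p]) / (p : ℚ_[p]) ^ K) := by
      have h8 : (p : ℚ_[p]) ^ (2 * l) = (p : ℚ_[p]) ^ l * (p : ℚ_[p]) ^ l := by
        rw [two_mul, pow_add]
      rw [h8] at hy
      have hpl : (p : ℚ_[p]) ^ l ≠ 0 := pow_ne_zero _ hp0
      have hpK : (p : ℚ_[p]) ^ K ≠ 0 := pow_ne_zero _ hp0
      rw [div_eq_iff hpl]
      apply mul_left_cancel₀ hpK
      rw [hy]
      field_simp
    rw [h7, norm_mul, norm_pow_p, mul_comm, ← mul_assoc, mul_inv_cancel₀ (pos_p p l).ne', one_mul, norm_div,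
      norm_pow_p, div_inv_eq_mul]
    have h9 : ‖(y : ℚ_[p])‖ ≤ 1 := PadicInt.norm_le_one y
    have h10 := pos_p p K
    nlinarith
  have hMq : (M : ℚ) ≠ 0 := Nat.cast_ne_zero.2 hM0.ne'
  have h5 : (M : ℚ)⁻¹ • ∑ i, ∑ d : (t i).C, f (S.trc c (t i).C d (t i).z) •
      lgP p (cfA d) ((jU j (t i).u ^ M : (MonoidAlgebra ℤ_[p] (t i).C)ˣ) : MonoidAlgebra ℤ_[p] (t i).C) = 0 := by
    rw [h4, smul_zero]
  rw [← h5, Finset.smul_sum]
  refine Finset.sum_congr rfl fun i _ => ?_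
  rw [Finset.smul_sum]
  refine Finset.sum_congr rfl fun d _ => ?_
  rw [smul_comm]
  congr 1
  exact lgUP_eq p (ma_commA (t i).comm) _ hM0 (h2' i)

open scoped Classical in
/-- **The linear algebra of the `K₁`-part, coefficients `B`.** -/
theorem linR (hj : Function.Injective j) (P : S.E → Prop) (hP : ∀ (m : ℕ) (x : S.E), P x → P (m • x))
    (hQ : HasRelR j S P)
    (hsep : ∀ C : Subgroup G, Finite C → IsCyclic C → ¬ p ∣ Nat.card C → PSepA p (S.M C))
    {ι : Type*} [Fintype ι] (s : ι → TrR S p) (hw : P (∑ i, (s i).val)) :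
    ∃ m : ℤ, m ≠ 0 ∧ m • ∑ i, (s i).val = 0 := by
  obtain ⟨M, n, t, hM, hprim, hsum⟩ := exists_primR j s
  have hfin : ∀ i, Finite (t i).C := fun i => (t i).fin
  let _ : ∀ i, Fintype (t i).C := fun i => Fintype.ofFinite _
  have ht : P (∑ i, (t i).val) := by
    rw [← hsum]
    exact hP M _ hw
  let s' : Setoid (Fin n) :=
    { r := fun i k => Cj (t i).C (t k).C
      iseqv := ⟨fun i => Cj.refl _, fun h => h.symm, fun h h' => h.trans h'⟩ }
  have htor : Tor (∑ i, (t i).val) := by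
    rw [← Finset.sum_fiberwise Finset.univ (fun i => (Quotient.mk s' i))]
    refine Tor.sum _ _ fun q _ => ?_
    obtain ⟨k, rfl⟩ := Quotient.exists_rep q
    rw [Finset.sum_subtype (p := fun i => Cj (t i).C (t k).C) _ (by
      intro i
      rw [Finset.mem_filter]
      constructor
      · rintro ⟨_, h⟩
        exact Quotient.exact h
      · intro h
        exact ⟨Finset.mem_univ _, Quotient.sound h⟩)]
    exact clsR_tor hj t hprim (fun c hc hpc f hf => relR_TJ hQ t ht c hc hpc f hf) (t k).C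
      (t k).fin (t k).cyc (t k).cop (hsep _ (t k).fin (t k).cyc (t k).cop)
  obtain ⟨m, hm, h⟩ := htor
  refine ⟨m * M, mul_ne_zero hm (by exact_mod_cast hM.ne'), ?_⟩
  rw [mul_smul, natCast_zsmul, hsum, h]

end Main

end Pool.Agent.H8.CZ
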