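import Pool.Agent.H8.CZ.Un

/-!
# Project CZ, block LIN, module Nm: the norm of a unit

`TJ_norm` : `B` a commutative ring with a homomorphism `j` to `ℤ_[p]`, `D → C` injective, `C` finite commutative, `u` a unit of
`B[C]`: there is a unit `z` of `B[D]` with `TJ p j z d = [C : D] TJ p j u d`; `TJ p j u = TP p (j u)`.
-/

set_option autoImplicit false

open Matrix

universe u v w

namespace Pool.Agent.H8.CZ

open Pool.Agent.H8.KL (One2 FinP)

section Det

/-- The norm of a unit under a homomorphism to a matrix ring. -/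
theorem nm_detA {R : Type*} [Ring R] {S : Type*} [CommRing S] {J : Type*} [Fintype J]
    [DecidableEq J] (ρ : R →+* Matrix J J S) (u : Rˣ) (e N : ℕ) (f : R) (hf : (N : R) * f = (u : R) ^ e - 1) :
    ∃ w : S, (N : S) * (trace (ρ f) + (N : S) * w) = (det (ρ u)) ^ e - 1 := by
  have h1 : (u : R) ^ e = 1 + (N : R) * f := by rw [hf]; abel
  have h2 : (det (ρ u)) ^ e = det (1 + (N : S) • ρ f) := by
    rw [← det_pow, ← map_pow, h1, map_add, map_one, map_mul, map_natCast]
    congr 2
    ext i j
    rw [Matrix.smul_apply, smul_eq_mul, ← Matrix.diagonal_natCast, Matrix.diagonal_mul]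
  have h3 := Matrix.det_one_add_smul (N : S) (ρ f)
  refine ⟨(det (1 + (Polynomial.X : Polynomial S) • (ρ f).map Polynomial.C)).divX.divX.eval
    (N : S), ?_⟩
  rw [h2, h3]
  ring

end Det

section Coef

variable {B : Type u} [CommRing B] {A : Type v} [CommRing A] {C : Type w} [Group C]

/-- the map of units induced by a homomorphism of coefficients -/
noncomputable def jU (j : B →+* A) : (MonoidAlgebra B C)ˣ →* (MonoidAlgebra A C)ˣ :=
  Units.map (MonoidAlgebra.mapRingHom C j).toMonoidHom

theorem coe_jU (j : B →+* A) (u : (MonoidAlgebra B C)ˣ) :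
    ((jU j u : (MonoidAlgebra A C)ˣ) : MonoidAlgebra A C) = MonoidAlgebra.mapRingHom C j u := rfl

theorem jU_mUA {C' : Type*} [Group C'] (j : B →+* A) (f : C →* C') (u : (MonoidAlgebra B C)ˣ) :
    jU j (mUA f u) = mUA f (jU j u) := by
  apply Units.ext
  change MonoidAlgebra.mapRingHom C' j (MonoidAlgebra.mapDomainRingHom B f (u : MonoidAlgebra B C)) =
    MonoidAlgebra.mapDomainRingHom A f (MonoidAlgebra.mapRingHom C j (u : MonoidAlgebra B C))
  generalize (u : MonoidAlgebra B C) = x
  induction x using MonoidAlgebra.induction_linear with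
  | zero => simp
  | add a b ha hb => rw [map_add, map_add, ha, hb, map_add, map_add]
  | single s t => simp [MonoidAlgebra.mapDomain_single]

open scoped Classical in
theorem lam_mapRing (j : B →+* A) (D : Subgroup C) [Fintype (C ⧸ D)] (f : MonoidAlgebra B C) :
    H71.FJ.lamR A D (MonoidAlgebra.mapRingHom C j f) =
      (H71.FJ.lamR B D f).map (MonoidAlgebra.mapRingHom D j) := by
  induction f using MonoidAlgebra.induction_linear with
  | zero =>
    ext x y : 1
    simp
  | add a b ha hb =>
    rw [map_add, map_add, ha, hb, map_add]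
    ext x y : 1
    rw [Matrix.add_apply, Matrix.map_apply, Matrix.map_apply, Matrix.map_apply, Matrix.add_apply, map_add]
  | single h r =>
    ext x y : 1
    rw [Matrix.map_apply]
    have h0 : MonoidAlgebra.mapRingHom C j (MonoidAlgebra.single h r) = MonoidAlgebra.single h (j r) := by simp
    rw [h0]
    change H71.FJ.lam A D (MonoidAlgebra.single h (j r)) x y =
      MonoidAlgebra.mapRingHom D j (H71.FJ.lam B D (MonoidAlgebra.single h r) x y)
    rw [H71.FJ.lam_single, H71.FJ.lam_single]
    split_ifs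
    · simp
    · simp

open scoped Classical in
theorem nm_traceA (hC : ∀ a b : C, a * b = b * a)
    (D : Subgroup C) [Fintype (C ⧸ D)] (f : MonoidAlgebra A C) (d : D) :
    (trace (H71.FJ.lamR A D f)).coeff d = D.index * f.coeff (d : C) := by
  have hidx : (D.index : A) = Fintype.card (C ⧸ D) := by
    rw [Subgroup.index_eq_card, Nat.card_eq_fintype_card]
  induction f using MonoidAlgebra.induction_linear with
  | zero => simp
  | add a b ha hb =>
    rw [map_add, trace_add, MonoidAlgebra.coeff_add, MonoidAlgebra.coeff_add, Finsupp.add_apply,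
      Finsupp.add_apply, ha, hb, mul_add]
  | single h r =>
    have h1 : ∀ x : C ⧸ D, (H71.FJ.lamR A D (MonoidAlgebra.single h r) x x).coeff d =
        (MonoidAlgebra.single h r).coeff (d : C) := by
      intro x
      change (H71.FJ.lam A D (MonoidAlgebra.single h r) x x).coeff d = _
      rw [H71.FJ.lam_single]
      have e : x.out⁻¹ * h * x.out = h := by
        rw [mul_assoc, hC h, ← mul_assoc, inv_mul_cancel, one_mul]
      by_cases hh : x.out⁻¹ * h * x.out ∈ D
      · rw [dif_pos hh, MonoidAlgebra.coeff_single, MonoidAlgebra.coeff_single]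
        rw [Finsupp.single_apply, Finsupp.single_apply]
        by_cases hd : h = (d : C)
        · rw [if_pos hd, if_pos (Subtype.ext (e.trans hd))]
        · rw [if_neg hd, if_neg (fun h' => hd (e.symm.trans (congrArg Subtype.val h')))]
      · rw [dif_neg hh, MonoidAlgebra.coeff_single, Finsupp.single_apply, if_neg]
        · rfl
        · intro hd
          apply hh
          rw [e, hd]
          exact d.2
    rw [Matrix.trace, MonoidAlgebra.coeff_sum, Finsupp.finsetSum_apply]
    simp only [Matrix.diag_apply]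
    rw [Finset.sum_congr rfl (fun x _ => h1 x), Finset.sum_const, Finset.card_univ, hidx]
    simp

end Coef

section TJ

variable (p : ℕ) [hp : Fact p.Prime] {B : Type u} [CommRing B] (j : B →+* ℤ_[p])

/-- the logarithm of a unit of `B[C]` at `d` -/
noncomputable def TJ {C : Type w} [Group C] (u : (MonoidAlgebra B C)ˣ) (d : C) : ApP p := TP p (jU j u) d

theorem TJ_one {C : Type w} [Group C] [Finite C] (hC : ∀ a b : C, a * b = b * a) (d : C) :
    TJ p j (1 : (MonoidAlgebra B C)ˣ) d = 0 := by
  unfold TJ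
  rw [map_one, TP_one p hC]

theorem TJ_mul {C : Type w} [Group C] [Finite C] (hC : ∀ a b : C, a * b = b * a)
    (u v : (MonoidAlgebra B C)ˣ) (d : C) : TJ p j (u * v) d = TJ p j u d + TJ p j v d := by
  unfold TJ
  rw [map_mul, TP_mul p hC]

theorem TJ_pow {C : Type w} [Group C] [Finite C] (hC : ∀ a b : C, a * b = b * a)
    (u : (MonoidAlgebra B C)ˣ) (d : C) (n : ℕ) : TJ p j (u ^ n) d = n • TJ p j u d := by
  unfold TJ
  rw [map_pow, TP_pow p hC]

theorem TJ_inv {C : Type w} [Group C] [Finite C] (hC : ∀ a b : C, a * b = b * a)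
    (u : (MonoidAlgebra B C)ˣ) (d : C) : TJ p j u⁻¹ d = - TJ p j u d := by
  unfold TJ
  rw [map_inv, TP_inv p hC]

theorem TJ_map {C C' : Type w} [Group C] [Finite C] [Group C'] (hC : ∀ a b : C, a * b = b * a)
    (hC' : ∀ a b : C', a * b = b * a) (f : C →* C') (hf : Function.Injective f)
    (u : (MonoidAlgebra B C)ˣ) (d : C) : TJ p j (mUA f u) (f d) = TJ p j u d := by
  unfold TJ
  rw [jU_mUA, TP_map p hC hC' f hf]

theorem TJ_map_ne {C C' : Type w} [Group C] [Finite C] [Group C'] (hC : ∀ a b : C, a * b = b * a)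
    (hC' : ∀ a b : C', a * b = b * a) (f : C →* C')
    (u : (MonoidAlgebra B C)ˣ) (d : C') (hd : ∀ c, f c ≠ d) : TJ p j (mUA f u) d = 0 := by
  unfold TJ
  rw [jU_mUA, TP_map_ne p hC hC' f _ d hd]

/-- **Detection.** -/
theorem TJ_detect (hj : Function.Injective j) {C : Type w} [Group C] [Finite C] (hC : ∀ a b : C, a * b = b * a)
    (u : (MonoidAlgebra B C)ˣ) (h : ∀ d, TJ p j u d = 0) : ∃ m : ℕ, 0 < m ∧ u ^ m = 1 := by
  obtain ⟨m, hm, h1⟩ := TP_detect p hC (jU j u) h
  refine ⟨m, hm, ?_⟩
  rw [← map_pow] at h1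
  apply Units.ext
  have h2 : MonoidAlgebra.mapRingHom C j ((u ^ m : (MonoidAlgebra B C)ˣ) : MonoidAlgebra B C) =
      MonoidAlgebra.mapRingHom C j ((1 : (MonoidAlgebra B C)ˣ) : MonoidAlgebra B C) := by
    rw [Units.val_one, map_one]
    exact congrArg Units.val h1
  apply MonoidAlgebra.coeff_injective
  ext c
  apply hj
  exact congrArg (fun x : MonoidAlgebra ℤ_[p] C => x.coeff c) h2

theorem nm_subA {C : Type w} [Group C] [Finite C]
    (hC : ∀ a b : C, a * b = b * a) (D : Subgroup C) (u : (MonoidAlgebra B C)ˣ) :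
    ∃ z : (MonoidAlgebra B D)ˣ, ∀ d : D, TJ p j z d = D.index • TJ p j u (d : C) := by
  classical
  have hD : ∀ a b : D, a * b = b * a := fun a b => Subtype.ext (hC a b)
  let _ : Fintype (C ⧸ D) := Fintype.ofFinite _
  let _ : CommRing (MonoidAlgebra B D) :=
    { (inferInstance : Ring (MonoidAlgebra B D)) with mul_comm := ma_commA hD }
  let _ : CommRing (MonoidAlgebra ℤ_[p] D) :=
    { (inferInstance : Ring (MonoidAlgebra ℤ_[p] D)) with mul_comm := ma_commA hD }
  let z : (MonoidAlgebra B D)ˣ :=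
    ⟨det (H71.FJ.lamR B D u), det (H71.FJ.lamR B D ((u⁻¹ : (MonoidAlgebra B C)ˣ) : MonoidAlgebra B C)), by
      rw [← det_mul, ← map_mul, Units.mul_inv, map_one, det_one], by
      rw [← det_mul, ← map_mul, Units.inv_mul, map_one, det_one]⟩
  refine ⟨z, fun d => ?_⟩
  have hz : ((jU j z : (MonoidAlgebra ℤ_[p] D)ˣ) : MonoidAlgebra ℤ_[p] D) =
      det (H71.FJ.lamR ℤ_[p] D ((jU j u : (MonoidAlgebra ℤ_[p] C)ˣ) : MonoidAlgebra ℤ_[p] C)) := by
    rw [coe_jU, coe_jU, lam_mapRing]
    exact RingHom.map_det (MonoidAlgebra.mapRingHom D j) _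
  exact lgUP_norm p (ma_commA hC) (ma_commA hD) (finPP p) (cfA (d : C)) (cfA d)
    ((Matrix.traceAddMonoidHom (C ⧸ D) (MonoidAlgebra ℤ_[p] D)).comp
      (H71.FJ.lamR ℤ_[p] D).toAddMonoidHom) D.index (fun a => nm_traceA hC D a d) (jU j u) (jU j z)
    (fun e N f hf => by
      obtain ⟨w, hw⟩ := nm_detA (H71.FJ.lamR ℤ_[p] D) (jU j u) e N f hf
      exact ⟨w, by rw [hz]; exact hw⟩)

theorem TJ_norm {C D : Type w} [Group C] [Finite C] [Group D]
    (hC : ∀ a b : C, a * b = b * a) (f : D →* C)
    (hf : Function.Injective f) (u : (MonoidAlgebra B C)ˣ) :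
    ∃ z : (MonoidAlgebra B D)ˣ, ∀ d : D, TJ p j z d = f.range.index • TJ p j u (f d) := by
  obtain ⟨z', hz'⟩ := nm_subA p j hC f.range u
  let e : D ≃* f.range := MonoidHom.ofInjective hf
  have : Finite D := Finite.of_injective f hf
  have hD : ∀ a b : D, a * b = b * a := fun a b => hf (by rw [map_mul, map_mul, hC])
  have hr : ∀ a b : f.range, a * b = b * a := fun a b => Subtype.ext (hC a b)
  refine ⟨mUA e.symm.toMonoidHom z', ?_⟩
  intro d
  have h1 := hz' (e d)
  have h2 : ((e d : f.range) : C) = f d := rfl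
  rw [h2] at h1
  rw [← h1]
  have h3 := TJ_map p j hr hD e.symm.toMonoidHom e.symm.injective z' (e d)
  have h4 : e.symm.toMonoidHom (e d) = d := e.symm_apply_apply d
  rw [h4] at h3
  exact h3

end TJ

end Pool.Agent.H8.CZ
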