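import Pool.Agent.H8.CZ.Nm
import Pool.Agent.H8.KL.PrimS

/-!
# Project CZ, block LIN, module Prim: primitive symbols with abstract coefficients, coefficient ring `B`, `j : B → ℤ_[p]`

`PrimJ p j C v` : the logarithms of the unit `v` of `B[C]` vanish at the elements that do not generate `C`.
`CoefR B G` : an abstract group `E` with symbols `[F, x, z]`, `F ≤ G` finite, `x ∈ K₁(B[F])`, `z ∈ M F`, with a
contravariant system `M` of coefficients, and the transports `trc` to groups `N c` attached to the elements of `G`.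
`exists_primR` : a multiple of a sum of symbols `[C, u, z]`, `C` cyclic of order prime to `p`, `u` a unit of `B[C]`, is a sum of
primitive ones.
-/

set_option autoImplicit false

open Matrix

universe u v w w' w''

namespace Pool.Agent.H8.CZ

open Pool.Agent.H95.WH (K1 K1.mk K1.map K1.unit K1.map_unit K1.unit_mul FamSub conjHom FinSub uH
  unit_pow)
open Pool.Agent.H8.KL (unit_one' unit_inv')

section K

variable (p : ℕ) [hp : Fact p.Prime] {B : Type u} [CommRing B] (j : B →+* ℤ_[p]) {G : Type v} [Group G]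

/-- the map `K₁(B[D]) → K₁(B[C])` for `D ≤ C` -/
noncomputable def iKB (B : Type u) [CommRing B] {D C : Subgroup G} (h : D ≤ C) :
    K1 (MonoidAlgebra B D) →+ K1 (MonoidAlgebra B C) :=
  K1.map (MonoidAlgebra.mapDomainRingHom B (Subgroup.inclusion h))

theorem iKB_unit {D C : Subgroup G} (h : D ≤ C) (v : (MonoidAlgebra B D)ˣ) :
    iKB B h (K1.unit v) = K1.unit (mUA (Subgroup.inclusion h) v) := by
  rw [iKB, K1.map_unit]
  rfl

/-- the logarithms vanish at the elements that do not generate `C` -/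
def PrimJ (C : Subgroup G) (v : (MonoidAlgebra B C)ˣ) : Prop :=
  ∀ d : C, Subgroup.zpowers (d : G) ≠ C → TJ p j v d = 0

theorem lowJ (C : Subgroup G) [Finite C] (hC : ∀ a b : C, a * b = b * a)
    (u : (MonoidAlgebra B C)ˣ) (L : List (Subgroup G)) : (∀ D ∈ L, D < C) →
    ∃ (m r : ℕ) (D : Fin r → Subgroup G) (hD : ∀ a, D a < C)
      (v : ∀ a, (MonoidAlgebra B (D a))ˣ) (w : (MonoidAlgebra B C)ˣ), 0 < m ∧
      m • K1.unit u = K1.unit w + ∑ a, iKB B (hD a).le (K1.unit (v a)) ∧
      ∀ E ∈ L, ∀ c : C, (c : G) ∈ E → TJ p j w c = 0 := by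
  induction L with
  | nil =>
    intro _
    exact ⟨1, 0, fun a => a.elim0, fun a => a.elim0, fun a => a.elim0, u, one_pos, by simp,
      by simp⟩
  | cons D0 L ih =>
    intro hL
    obtain ⟨m, r, D, hD, v, w, hm, h1, h2⟩ := ih fun D hD => hL D (List.mem_cons_of_mem _ hD)
    have hD0 : D0 < C := hL D0 List.mem_cons_self
    have hfin0 : Finite D0 := Finite.of_injective _ (Subgroup.inclusion_injective hD0.le)
    have hcom0 : ∀ a b : D0, a * b = b * a := fun a b =>
      Subgroup.inclusion_injective hD0.le (by rw [map_mul, map_mul, hC])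
    obtain ⟨z, hz⟩ := TJ_norm p j hC (Subgroup.inclusion hD0.le)
      (Subgroup.inclusion_injective hD0.le) w
    obtain ⟨n, hn⟩ : ∃ n, n = (Subgroup.inclusion hD0.le).range.index := ⟨_, rfl⟩
    have hn0 : 0 < n := by
      rw [hn]
      exact Nat.pos_of_ne_zero Subgroup.index_ne_zero_of_finite
    rw [← hn] at hz
    refine ⟨n * m, r + 1, Fin.cons D0 D, Fin.cases hD0 hD,
      Fin.cases (motive := fun a => (MonoidAlgebra B ((Fin.cons D0 D : Fin (r + 1) → Subgroup G) a))ˣ)
        z (fun a => v a ^ n), w ^ n * (mUA (Subgroup.inclusion hD0.le) z)⁻¹,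
      Nat.mul_pos hn0 hm, ?_, ?_⟩
    · rw [mul_smul, h1, Fin.sum_univ_succ, smul_add, Finset.smul_sum, K1.unit_mul, unit_inv',
        unit_pow, ← iKB_unit hD0.le]
      have e1 : ∀ a : Fin r, n • iKB B (hD a).le (K1.unit (v a)) =
          iKB B (hD a).le (K1.unit (v a ^ n)) := by
        intro a
        rw [unit_pow, map_nsmul]
      rw [Finset.sum_congr rfl fun a _ => e1 a]
      change _ = n • K1.unit w + -iKB B hD0.le (K1.unit z) + (iKB B hD0.le (K1.unit z) +
        ∑ a, iKB B (hD a).le (K1.unit (v a ^ n)))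
      abel
    · intro E hE c hc
      rw [TJ_mul p j hC, TJ_inv p j hC, TJ_pow p j hC]
      by_cases hc0 : (c : G) ∈ D0
      · have h3 := TJ_map p j hcom0 hC (Subgroup.inclusion hD0.le)
          (Subgroup.inclusion_injective hD0.le) z ⟨(c : G), hc0⟩
        have h4 : Subgroup.inclusion hD0.le ⟨(c : G), hc0⟩ = c := rfl
        rw [hz, h4] at h3
        rw [h3, add_neg_cancel]
      · rw [TJ_map_ne p j hcom0 hC (Subgroup.inclusion hD0.le) z c, neg_zero, add_zero]
        · rcases List.mem_cons.1 hE with rfl | hE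
          · exact absurd hc hc0
          · rw [h2 E hE c hc, smul_zero]
        · intro d hd
          apply hc0
          rw [← hd]
          exact d.2

theorem low_primJ (C : Subgroup G) [Finite C] (hC : ∀ a b : C, a * b = b * a)
    (u : (MonoidAlgebra B C)ˣ) :
    ∃ (m r : ℕ) (D : Fin r → Subgroup G) (hD : ∀ a, D a < C)
      (v : ∀ a, (MonoidAlgebra B (D a))ˣ) (w : (MonoidAlgebra B C)ˣ), 0 < m ∧
      m • K1.unit u = K1.unit w + ∑ a, iKB B (hD a).le (K1.unit (v a)) ∧ PrimJ p j C w := by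
  classical
  let _ : Fintype C := Fintype.ofFinite C
  obtain ⟨m, r, D, hD, v, w, hm, h1, h2⟩ := lowJ p j C hC u
    (((Finset.univ : Finset C).filter (fun c : C => Subgroup.zpowers (c : G) ≠ C)).toList.map
      (fun c : C => Subgroup.zpowers (c : G))) (by
      intro E hE
      rw [List.mem_map] at hE
      obtain ⟨c, hc, rfl⟩ := hE
      rw [Finset.mem_toList, Finset.mem_filter] at hc
      exact lt_of_le_of_ne (by rw [Subgroup.zpowers_le]; exact c.2) hc.2)
  refine ⟨m, r, D, hD, v, w, hm, h1, ?_⟩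
  intro d hd
  refine h2 (Subgroup.zpowers (d : G)) ?_ d (Subgroup.mem_zpowers _)
  rw [List.mem_map]
  exact ⟨d, by rw [Finset.mem_toList, Finset.mem_filter]; exact ⟨Finset.mem_univ _, hd⟩, rfl⟩

end K

/-- A system of coefficients for symbols. -/
structure CoefR (B : Type u) [CommRing B] (G : Type v) [Group G] where
  /-- the coefficients -/
  M : Subgroup G → Type w
  [instM : ∀ C, AddCommGroup (M C)]
  /-- the transport -/
  tr : ∀ (g : G) (F F' : Subgroup G), (∀ x ∈ F, g * x * g⁻¹ ∈ F') → (M F' →+ M F)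
  /-- the coefficients attached to an element -/
  N : G → Type w'
  [instN : ∀ c, AddCommGroup (N c)]
  /-- the transport to an element -/
  trc : ∀ (c : G) (C : Subgroup G) (_ : C), M C →+ N c
  /-- the comparison -/
  kap : ∀ (C₀ : Subgroup G) (e : G), Subgroup.zpowers e = C₀ → (N e →+ M C₀)
  trc_of_not : ∀ {c : G} {C : Subgroup G} {d : C}, ¬ IsConj c (d : G) → trc c C d = 0
  kap_trc : ∀ (C₀ : Subgroup G) (e : G) (he : Subgroup.zpowers e = C₀) (C : Subgroup G) (x : G)
    (h2 : ∀ y ∈ C₀, x * y * x⁻¹ ∈ C) (d : C), x * e * x⁻¹ = d → ∀ z : M C,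
      kap C₀ e he (trc e C d z) = tr x C₀ C h2 z
  /-- the group of symbols -/
  E : Type w''
  [instE : AddCommGroup E]
  /-- the symbols -/
  sy : ∀ F : FamSub G FinSub, K1 (MonoidAlgebra B F.1) →+ M F.1 →+ E
  sy_conj : ∀ (F F' : FamSub G FinSub) (g : G) (h : ∀ x ∈ F.1, g * x * g⁻¹ ∈ F'.1)
    (x : K1 (MonoidAlgebra B F.1)) (z : M F'.1),
    sy F' (K1.map (MonoidAlgebra.mapDomainRingHom B (conjHom g F.1 F'.1 h)) x) z =
      sy F x (tr g F.1 F'.1 h z)

attribute [instance] CoefR.instM CoefR.instN CoefR.instE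

section TrS

/-- a symbol `[C, v, z]` with `C` finite cyclic of order prime to `p` and `v` a unit of `B[C]` -/
structure TrR {B : Type u} [CommRing B] {G : Type v} [Group G] (S : CoefR B G) (p : ℕ) where
  /-- the subgroup -/
  C : Subgroup G
  fin : Finite C
  cyc : IsCyclic C
  cop : ¬ p ∣ Nat.card C
  /-- the unit -/
  u : (MonoidAlgebra B C)ˣ
  /-- the homology class -/
  z : S.M C

variable {p : ℕ} [hp : Fact p.Prime] {B : Type u} [CommRing B] {j : B →+* ℤ_[p]} {G : Type v} [Group G] {S : CoefR B G}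

/-- the value of a symbol -/
noncomputable def TrR.val (t : TrR S p) : S.E := S.sy ⟨t.C, t.fin⟩ (K1.unit t.u) t.z

theorem TrR.comm (t : TrR S p) (a b : t.C) : a * b = b * a := by
  have := t.cyc
  exact (IsCyclic.commGroup (α := t.C)).mul_comm a b

variable (j) in
/-- the subgroup generated by the primitive symbols -/
noncomputable def PSR (S : CoefR B G) : AddSubgroup S.E :=
  AddSubgroup.closure {x | ∃ t : TrR S p, PrimJ p j t.C t.u ∧ x = t.val}

variable (j) in
/-- the elements with a multiple in `PSR` -/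
def MPR (x : S.E) : Prop := ∃ m : ℕ, 0 < m ∧ m • x ∈ PSR j S

theorem MPR.zero : MPR j (0 : S.E) := ⟨1, one_pos, by rw [smul_zero]; exact zero_mem _⟩

theorem MPR.add {x y : S.E} (hx : MPR j x) (hy : MPR j y) : MPR j (x + y) := by
  obtain ⟨m, hm, h⟩ := hx
  obtain ⟨n, hn, h'⟩ := hy
  refine ⟨m * n, Nat.mul_pos hm hn, ?_⟩
  rw [smul_add]
  refine add_mem ?_ ?_
  · rw [mul_comm, mul_smul]
    exact AddSubgroup.nsmul_mem _ h n
  · rw [mul_smul]
    exact AddSubgroup.nsmul_mem _ h' m

theorem MPR.neg {x : S.E} (hx : MPR j x) : MPR j (-x) := by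
  obtain ⟨m, hm, h⟩ := hx
  exact ⟨m, hm, by rw [smul_neg]; exact neg_mem h⟩

theorem MPR.of_smul {x : S.E} {m : ℕ} (hm : 0 < m) (h : MPR j (m • x)) : MPR j x := by
  obtain ⟨n, hn, h'⟩ := h
  exact ⟨n * m, Nat.mul_pos hn hm, by rw [mul_smul]; exact h'⟩

theorem MPR.sum {ι : Type*} (s : Finset ι) (f : ι → S.E) (h : ∀ i ∈ s, MPR j (f i)) :
    MPR j (∑ i ∈ s, f i) := by
  classical
  induction s using Finset.induction_on with
  | empty => rw [Finset.sum_empty]; exact MPR.zero
  | insert i s hi ih =>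
    rw [Finset.sum_insert hi]
    exact (h i (Finset.mem_insert_self i s)).add
      (ih fun j hj => h j (Finset.mem_insert_of_mem hj))

/-- the symbol of an element from a subgroup -/
theorem syR_iK {D C : Subgroup G} (h : D ≤ C) (hD : FinSub D) (hC : FinSub C)
    (x : K1 (MonoidAlgebra B D)) (z : S.M C) :
    ∃ z', S.sy ⟨C, hC⟩ (iKB B h x) z = S.sy ⟨D, hD⟩ x z' := by
  have hc : ∀ x ∈ D, (1 : G) * x * 1⁻¹ ∈ C := by
    intro x hx
    rw [one_mul, inv_one, mul_one]
    exact h hx
  have h1 := S.sy_conj ⟨D, hD⟩ ⟨C, hC⟩ 1 hc x z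
  have h2 : conjHom (1 : G) D C hc = Subgroup.inclusion h := by
    ext y
    change 1 * (y : G) * 1⁻¹ = y
    group
  rw [h2] at h1
  exact ⟨_, h1⟩

variable (j) in
theorem MPR_unit : ∀ (n : ℕ) (t : TrR S p), Nat.card t.C ≤ n → MPR j t.val := by
  intro n
  induction n with
  | zero =>
    intro t ht
    have := t.fin
    have h1 : 0 < Nat.card t.C := Nat.card_pos
    omega
  | succ n ih =>
    intro t ht
    have := t.fin
    have hcyc := t.cyc
    obtain ⟨m, r, D, hD, v, w, hm, h1, h2⟩ := low_primJ p j t.C t.comm t.u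
    apply MPR.of_smul hm
    have e1 : m • t.val = S.sy ⟨t.C, t.fin⟩ (m • K1.unit t.u) t.z := by
      rw [map_nsmul, AddMonoidHom.coe_smul, Pi.smul_apply]
      rfl
    rw [e1, h1, map_add, map_sum, AddMonoidHom.add_apply, AddMonoidHom.finsetSum_apply]
    refine MPR.add ?_ (MPR.sum _ _ fun a _ => ?_)
    · refine ⟨1, one_pos, ?_⟩
      rw [one_smul]
      exact AddSubgroup.subset_closure ⟨⟨t.C, t.fin, t.cyc, t.cop, w, t.z⟩, h2, rfl⟩
    · have hf : Finite (D a) := Finite.of_injective _ (Subgroup.inclusion_injective (hD a).le)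
      have hc : IsCyclic (D a) := isCyclic_of_injective _ (Subgroup.inclusion_injective (hD a).le)
      obtain ⟨z', hz'⟩ := syR_iK (hD a).le hf t.fin (K1.unit (v a)) t.z
      rw [hz']
      refine ih ⟨D a, hf, hc, fun h0 => t.cop (h0.trans (Subgroup.card_dvd_of_le (hD a).le)), v a, z'⟩ ?_
      have h3 : Nat.card (D a) < Nat.card t.C := by
        by_contra hcon
        have h4 := Subgroup.eq_of_le_of_card_ge (hD a).le (not_lt.1 hcon)
        exact (hD a).ne h4
      change Nat.card (D a) ≤ n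
      omega

theorem TrR.neg_val (t : TrR S p) :
    -t.val = (⟨t.C, t.fin, t.cyc, t.cop, t.u, -t.z⟩ : TrR S p).val := by
  have h1 : t.val = S.sy ⟨t.C, t.fin⟩ (K1.unit t.u) t.z := rfl
  have h2 : (⟨t.C, t.fin, t.cyc, t.cop, t.u, -t.z⟩ : TrR S p).val =
      S.sy ⟨t.C, t.fin⟩ (K1.unit t.u) (-t.z) := rfl
  rw [h1, h2, map_neg]

theorem exists_listR {x : S.E} (hx : x ∈ PSR j S) :
    ∃ l : List (TrR S p), (∀ t ∈ l, PrimJ p j t.C t.u) ∧ x = (l.map TrR.val).sum := by
  induction hx using AddSubgroup.closure_induction with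
  | mem x hx =>
    obtain ⟨t, ht, rfl⟩ := hx
    exact ⟨[t], by simpa using ht, by simp⟩
  | zero => exact ⟨[], by simp, by simp⟩
  | add x y _ _ hx hy =>
    obtain ⟨l, h1, h2⟩ := hx
    obtain ⟨l', h1', h2'⟩ := hy
    refine ⟨l ++ l', ?_, ?_⟩
    · intro t ht
      rcases List.mem_append.1 ht with h | h
      · exact h1 t h
      · exact h1' t h
    · rw [List.map_append, List.sum_append, h2, h2']
  | neg x _ hx =>
    obtain ⟨l, h1, h2⟩ := hx
    refine ⟨l.map fun t => ⟨t.C, t.fin, t.cyc, t.cop, t.u, -t.z⟩, ?_, ?_⟩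
    · intro t ht
      obtain ⟨t', ht', rfl⟩ := List.mem_map.1 ht
      exact h1 t' ht'
    · rw [h2, List.map_map]
      clear h1 h2
      induction l with
      | nil => simp
      | cons t l ih =>
        rw [List.map_cons, List.map_cons, List.sum_cons, List.sum_cons, neg_add, ih,
          TrR.neg_val]
        rfl

/-- **A multiple of a sum of symbols of units is a finite sum of primitive symbols.** -/
theorem exists_primR (j : B →+* ℤ_[p]) {ι : Type*} [Fintype ι] (s : ι → TrR S p) :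
    ∃ (m n : ℕ) (t : Fin n → TrR S p), 0 < m ∧ (∀ i, PrimJ p j (t i).C (t i).u) ∧
      m • ∑ i, (s i).val = ∑ i, (t i).val := by
  obtain ⟨m, hm, h⟩ : MPR j (∑ i, (s i).val) := MPR.sum _ _ fun i _ => MPR_unit j _ (s i) le_rfl
  obtain ⟨l, h1, h2⟩ := exists_listR h
  refine ⟨m, l.length, fun i => l.get i, hm, fun i => h1 _ (List.get_mem l i), ?_⟩
  rw [h2]
  clear h h1 h2
  induction l with
  | nil => simp
  | cons t l ih =>
    rw [List.map_cons, List.sum_cons, ih]
    exact (Fin.sum_univ_succ (n := l.length) fun i => ((t :: l).get i).val).symm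

end TrS

end Pool.Agent.H8.CZ
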