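import Pool.Agent.H8.CZ.Tra
import Pool.Agent.H16.FU.Dir
import Pool.Agent.H71.KP.Main0

/-!
# Project CZ, module Red: reduction of the relations over a field to the relations over `ℤ_[p]`

`Q1 R G n` : the elements `x` of `HnK1 R G n` such that a nonzero multiple of the assembly of `x` vanishes.
`exists_zero_asm` : such a relation over `k` holds over all subrings of `k` that contain a finite set.
`hasRelF_of` : `HasRelF k G n (Q1 k G n)` follows from `RelP p ℤ_[p] id G n (Q1 ℤ_[p] G n)` for all large `p`.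
-/

set_option autoImplicit false

open Matrix Filter

universe u v w

namespace Pool.Agent.H8.CZ

open Pool.Agent.H95.WH (K1 K1.mk K1.map K1.unit K1.map_unit K1.map_map FamSub FinSub)
open Pool.Agent.H71.FQ (HG HG.map KQ KQ.map KQ.exists_zero mapRingHom_injective')
open Pool.Agent.H16.FU (HnK1 sy1 hn1 hn1_sy1 hn1_comp assembly1 map_assembly1)
open Pool.Agent.H16.KN (PSepA trc)
open Pool.Agent.H71.CZ (RelP HasRelF linF)
open Pool.Agent.H71.KP (sub incl incl_injective eventually_mem eventually_ga eventually_uMap uMap finiteType_sub exists_padic_embedding)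

section Q1

variable {R : Type u} [Ring R] {R' : Type w} [Ring R'] {G : Type v} [Group G] {n : ℕ}

variable (R G n) in
/-- the elements with torsion assembly -/
def Q1 : AddSubgroup (HnK1 R G n) where
  carrier := {x | ∃ M : ℤ, M ≠ 0 ∧ M • assembly1 R n G x = 0}
  add_mem' := by
    rintro x x' ⟨M, hM, h⟩ ⟨M', hM', h'⟩
    refine ⟨M * M', mul_ne_zero hM hM', ?_⟩
    rw [map_add, smul_add, mul_smul M M' (assembly1 R n G x'), h', smul_zero, add_zero, mul_comm,
      mul_smul, h, smul_zero]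
  zero_mem' := ⟨1, one_ne_zero, by rw [map_zero, smul_zero]⟩
  neg_mem' := by
    rintro x ⟨M, hM, h⟩
    exact ⟨M, hM, by rw [map_neg, smul_neg, h, neg_zero]⟩

theorem mem_Q1 {x : HnK1 R G n} : x ∈ Q1 R G n ↔ ∃ M : ℤ, M ≠ 0 ∧ M • assembly1 R n G x = 0 := Iff.rfl

theorem hn1_Q1 (f : R →+* R') {x : HnK1 R G n} (hx : x ∈ Q1 R G n) : hn1 f x ∈ Q1 R' G n := by
  obtain ⟨M, hM, h⟩ := hx
  refine ⟨M, hM, ?_⟩
  rw [← map_assembly1, ← map_zsmul, h, map_zero]

theorem mem_range_mapR (f : R' →+* R) (M : Type*) [Monoid M]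
    (a : MonoidAlgebra R M) (h : ∀ m ∈ a.coeff.support, a.coeff m ∈ Set.range f) :
    a ∈ Set.range (MonoidAlgebra.mapRingHom M f) := by
  classical
  have h' : ∀ m, ∃ c, f c = a.coeff m := by
    intro m
    by_cases hm : a.coeff m = 0
    · exact ⟨0, by rw [map_zero, hm]⟩
    · exact h m (Finsupp.mem_support_iff.2 hm)
  choose c hc using h'
  refine ⟨∑ m ∈ a.coeff.support, MonoidAlgebra.single m (c m), ?_⟩
  rw [map_sum]
  simp only [MonoidAlgebra.mapRingHom_single, hc]
  exact MonoidAlgebra.sum_coeff_single a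

/-- **A vanishing assembly vanishes over the rings that contain a finite set.** -/
theorem exists_zero_asm (f : R' →+* R) (x : HnK1 R' G n) (M : ℤ)
    (hx : M • assembly1 R n G (hn1 f x) = 0) :
    ∃ T : Finset R, ∀ {R'' : Type w} [Ring R''] (g : R'' →+* R) (θ : R' →+* R''),
      Function.Injective g → g.comp θ = f → (∀ a ∈ T, a ∈ Set.range g) → M • assembly1 R'' n G (hn1 θ x) = 0 := by
  classical
  have h1 : KQ.map (MonoidAlgebra.mapRingHom G f) (M • assembly1 R' n G x) = 0 := by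
    rw [map_zsmul, map_assembly1, hx]
  obtain ⟨T, hT⟩ := KQ.exists_zero.{max u v, max w v, max w v} _ _ h1
  refine ⟨T.biUnion fun a => a.coeff.support.image a.coeff, ?_⟩
  intro R'' _ g θ hg hgθ h
  have h2 : KQ.map (MonoidAlgebra.mapRingHom G θ) (M • assembly1 R' n G x) = 0 := by
    refine hT (MonoidAlgebra.mapRingHom G g) _ (mapRingHom_injective' hg G) ?_ ?_
    · rw [← hgθ, MonoidAlgebra.mapRingHom_comp]
    · intro a ha
      apply mem_range_mapR
      intro m hm
      exact h _ (Finset.mem_biUnion.2 ⟨a, ha, Finset.mem_image.2 ⟨m, hm, rfl⟩⟩)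
  rw [map_zsmul, map_assembly1] at h2
  exact h2

end Q1

section Sum

variable {A : Type u} [CommRing A] {A' : Type w} [CommRing A'] {G : Type v} [Group G] {n r : ℕ}

theorem hn1_sum (θ : A →+* A') (C : Fin r → Subgroup G) (hC : ∀ i, Finite (C i)) (v : ∀ i, (MonoidAlgebra A (C i))ˣ)
    (z : ∀ i, HG (Subgroup.centralizer (C i : Set G)) n) :
    hn1 θ (∑ i, sy1 ⟨C i, hC i⟩ (K1.unit (v i)) (z i)) = ∑ i, sy1 ⟨C i, hC i⟩ (K1.unit (jU θ (v i))) (z i) := by
  rw [map_sum]
  refine Finset.sum_congr rfl fun i _ => ?_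
  rw [hn1_sy1, K1.map_unit]
  rfl

theorem jU_comp {A'' : Type*} [CommRing A''] (θ : A →+* A') (θ' : A' →+* A'') (C : Type v) [Group C]
    (v : (MonoidAlgebra A C)ˣ) : jU θ' (jU θ v) = jU (θ'.comp θ) v := by
  apply Units.ext
  rw [coe_jU, coe_jU, coe_jU, ← RingHom.comp_apply, ← MonoidAlgebra.mapRingHom_comp]

end Sum

theorem sub_mono {R : Type u} [CommRing R] {s s' : Finset R} (h : s ⊆ s') : sub s ≤ sub s' := by
  unfold H71.KP.sub
  exact Subring.closure_mono (Finset.coe_subset.2 h)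

/-- the inclusion -/
theorem exists_theta {R : Type u} [CommRing R] {s s' : Finset R} (h : s ⊆ s') :
    ∃ θ : sub s →+* sub s', (incl s').comp θ = incl s := by
  refine ⟨Subring.inclusion (sub_mono h), RingHom.ext fun x => ?_⟩
  rw [RingHom.comp_apply]
  simp only [incl, Subring.subtype_apply, Subring.coe_inclusion]

section Main

variable {k : Type u} [Field k] [CharZero k] {G : Type v} [Group G] {n : ℕ}

/-- a prime that does not divide a unit -/
theorem lt_of_unit {A : Type u} [CommRing A] {p : ℕ} [hp : Fact p.Prime] (ρ : A →+* ℤ_[p]) (N : ℕ) (b : A)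
    (hb : b * ((Nat.factorial N : ℕ) : A) = 1) : N < p := by
  by_contra hcon
  push Not at hcon
  have h9 := congrArg ρ hb
  rw [map_mul, map_natCast, map_one] at h9
  obtain ⟨q, hq⟩ : p ∣ Nat.factorial N := hp.out.dvd_factorial.2 hcon
  rw [hq] at h9
  push_cast at h9
  have h10 : IsUnit (p : ℤ_[p]) := IsUnit.of_mul_eq_one (ρ b * q) (by rw [← h9]; ring)
  exact PadicInt.prime_p.not_isUnit h10

/-- finitely generated subrings of a field of characteristic zero that contain a finite set and the inverse of `N!` -/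
theorem exists_sub (s : Finset k) (N : ℕ) : ∃ (p : ℕ) (_ : Fact p.Prime) (s' : Finset k) (ρ : sub s' →+* ℤ_[p]),
    s ⊆ s' ∧ N < p ∧ Function.Injective ρ := by
  classical
  obtain ⟨s', hs'⟩ : ∃ s', s' = s ∪ {((Nat.factorial N : ℕ) : k)⁻¹} := ⟨_, rfl⟩
  have hcz : CharZero (sub s') := ⟨fun a b hab => by
    have h1 := congrArg (incl s') hab
    rw [map_natCast, map_natCast] at h1
    exact Nat.cast_injective h1⟩
  have hft := finiteType_sub s'
  obtain ⟨p, hp, ρ, hρ⟩ := exists_padic_embedding (sub s')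
  refine ⟨p, hp, s', ρ, ?_, ?_, hρ⟩
  · rw [hs']
    exact Finset.subset_union_left
  · have h1 : ((Nat.factorial N : ℕ) : k)⁻¹ ∈ sub s' := Subring.subset_closure (by
      rw [hs', Finset.mem_coe]
      exact Finset.mem_union_right _ (Finset.mem_singleton_self _))
    refine lt_of_unit ρ N ⟨_, h1⟩ ?_
    apply incl_injective s'
    rw [map_mul, map_natCast, map_one]
    exact inv_mul_cancel₀ (Nat.cast_ne_zero.2 (Nat.factorial_ne_zero N))

/-- **Descent of the relations.** -/
theorem hasRelF_of (N₀ : ℕ) (hrel : ∀ (p : ℕ) [Fact p.Prime], N₀ < p →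
      RelP p ℤ_[p] (RingHom.id ℤ_[p]) G n (Q1 ℤ_[p] G n)) : HasRelF k G n (Q1 k G n) := by
  classical
  intro N r C hC hcyc _ u z hmem
  obtain ⟨M, hM, hz⟩ := hmem
  -- a subring over which the data are defined
  have e1 : ∀ᶠ s : Finset k in atTop, ∀ i, ∃ x', uMap (incl s) (C i) x' = u i :=
    eventually_all.2 fun i => eventually_uMap (u i)
  obtain ⟨s, h1⟩ := e1.exists
  choose v hv using h1
  have hv' : ∀ i, jU (incl s) (v i) = u i := hv
  have hy1 : hn1 (incl s) (∑ i, sy1 ⟨C i, hC i⟩ (K1.unit (v i)) (z i)) =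
      ∑ i, sy1 ⟨C i, hC i⟩ (K1.unit (u i)) (z i) := by
    rw [hn1_sum]
    simp only [hv']
  obtain ⟨T, hT⟩ := exists_zero_asm (incl s) (∑ i, sy1 ⟨C i, hC i⟩ (K1.unit (v i)) (z i)) M (by rw [hy1, hz])
  -- a larger subring
  obtain ⟨p, hp, s', ρ, hs', hp1, hρ⟩ := exists_sub (s ∪ T) (max N N₀)
  obtain ⟨θ, hθ⟩ := exists_theta (Finset.subset_union_left.trans hs')
  have h7 := hT (incl s') θ (incl_injective s') hθ fun a ha => ⟨⟨a, Subring.subset_closure
    (Finset.mem_coe.2 (hs' (Finset.mem_union_right _ ha)))⟩, rfl⟩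
  refine ⟨p, hp, sub s', ρ, fun i => jU θ (v i), Q1 (sub s') G n, lt_of_le_of_lt (le_max_left _ _) hp1, hρ, ?_, ?_, ?_⟩
  · intro i
    have h8 : jU (incl s') (jU θ (v i)) = u i := by rw [jU_comp, hθ, hv']
    exact congrArg (fun x : (MonoidAlgebra k (C i))ˣ => (x : MonoidAlgebra k (C i))) h8
  · rw [← hn1_sum]
    exact ⟨M, hM, h7⟩
  · exact relP_of_id ρ (hrel p (lt_of_le_of_lt (le_max_right _ _) hp1)) fun x hx => hn1_Q1 ρ hx

end Main

end Pool.Agent.H8.CZ
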