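import Pool.Agent.H8.CZ.Ap
import Pool.Agent.H8.KL.Un

/-!
# Project CZ, block LIN, module Un: the `p`-adic logarithm of the units of `ℤ_[p][C]`

`lgUP p φ u` : `lgP p φ (u ^ m) / m` for any `m > 0` with `u ^ m = 1` modulo `p ^ 2`.
`TP p u d` : `lgUP` for the coefficient at `d`, `u` a unit of `ℤ_[p][C]`, `C` finite.
-/

set_option autoImplicit false

open Matrix

universe u v w

namespace Pool.Agent.H8.CZ

open Pool.Agent.H8.KL (One2 One2.pow_eq One2.mul One2.pow One2.one One2.map One2.inv FinP)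
open Pool.Agent.H95.WH (K1 PowMod powMod_of_finite)

section LgU

variable (p : ℕ) [hp : Fact p.Prime] {R : Type u} [Ring R] {S : Type v} [Ring S]

open scoped Classical in
/-- the logarithm of a unit -/
noncomputable def lgUP (φ : R →+ ℤ_[p]) (u : Rˣ) : ApP p :=
  if h : ∃ m : ℕ, 0 < m ∧ One2 p ((u ^ m : Rˣ) : R) then
    ((h.choose : ℕ) : ℚ)⁻¹ • lgP p φ ((u ^ h.choose : Rˣ) : R) else 0

theorem lgUP_eq (hR : ∀ x y : R, x * y = y * x) (φ : R →+ ℤ_[p]) {u : Rˣ} {m : ℕ} (hm : 0 < m)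
    (h : One2 p ((u ^ m : Rˣ) : R)) : lgUP p φ u = (m : ℚ)⁻¹ • lgP p φ ((u ^ m : Rˣ) : R) := by
  have hex : ∃ m : ℕ, 0 < m ∧ One2 p ((u ^ m : Rˣ) : R) := ⟨m, hm, h⟩
  unfold lgUP
  rw [dif_pos hex]
  obtain ⟨h1, h2⟩ := hex.choose_spec
  generalize hex.choose = n at h1 h2
  have hn0 : (n : ℚ) ≠ 0 := Nat.cast_ne_zero.2 h1.ne'
  have hm0 : (m : ℚ) ≠ 0 := Nat.cast_ne_zero.2 hm.ne'
  have h3 := lgP_pow p hR φ h2 m
  have h4 := lgP_pow p hR φ h n
  rw [← Units.val_pow_eq_pow_val, ← pow_mul] at h3 h4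
  rw [mul_comm m n, h3] at h4
  rw [inv_smul_eq_iff₀ hn0, smul_comm, eq_inv_smul_iff₀ hm0, Nat.cast_smul_eq_nsmul,
    Nat.cast_smul_eq_nsmul, h4]

theorem lgUP_one (hR : ∀ x y : R, x * y = y * x) (φ : R →+ ℤ_[p]) : lgUP p φ (1 : Rˣ) = 0 := by
  rw [lgUP_eq p hR φ (m := 1) one_pos (by rw [one_pow]; exact One2.one p), one_pow, Units.val_one,
    lgP_one, smul_zero]

theorem lgUP_mul (hR : ∀ x y : R, x * y = y * x) (hF : FinP p R) (φ : R →+ ℤ_[p]) (u v : Rˣ) :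
    lgUP p φ (u * v) = lgUP p φ u + lgUP p φ v := by
  obtain ⟨m, hm, h⟩ := hF u
  obtain ⟨n, hn, h'⟩ := hF v
  have hmn : 0 < m * n := Nat.mul_pos hm hn
  have h1 : One2 p ((u ^ (m * n) : Rˣ) : R) := by
    rw [pow_mul, Units.val_pow_eq_pow_val]
    exact h.pow p n
  have h2 : One2 p ((v ^ (m * n) : Rˣ) : R) := by
    rw [mul_comm, pow_mul, Units.val_pow_eq_pow_val]
    exact h'.pow p m
  have h3 : (u * v) ^ (m * n) = u ^ (m * n) * v ^ (m * n) :=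
    (show Commute u v from Units.ext (hR _ _)).mul_pow _
  have h4 : One2 p (((u * v) ^ (m * n) : Rˣ) : R) := by
    rw [h3, Units.val_mul]
    exact h1.mul p h2
  rw [lgUP_eq p hR φ hmn h4, lgUP_eq p hR φ hmn h1, lgUP_eq p hR φ hmn h2, h3, Units.val_mul,
    lgP_mul p φ h1 h2 (hR _ _), smul_add]

theorem lgUP_comp (hR : ∀ x y : R, x * y = y * x) (hS : ∀ x y : S, x * y = y * x)
    (hF : FinP p R) (f : R →+* S) (φ : S →+ ℤ_[p]) (u : Rˣ) :
    lgUP p φ (Units.map f.toMonoidHom u) = lgUP p (φ.comp f.toAddMonoidHom) u := by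
  obtain ⟨m, hm, h⟩ := hF u
  have h1 : (((Units.map f.toMonoidHom u) ^ m : Sˣ) : S) = f ((u ^ m : Rˣ) : R) := by
    rw [← map_pow]
    rfl
  have h2 : One2 p (((Units.map f.toMonoidHom u) ^ m : Sˣ) : S) := by
    rw [h1]
    exact h.map p f
  rw [lgUP_eq p hS φ hm h2, lgUP_eq p hR _ hm h, h1, lgP_comp]

theorem lgUP_zero (hR : ∀ x y : R, x * y = y * x) (hF : FinP p R) (u : Rˣ) :
    lgUP p (0 : R →+ ℤ_[p]) u = 0 := by
  obtain ⟨m, hm, h⟩ := hF u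
  rw [lgUP_eq p hR _ hm h]
  have h1 : lgP p (0 : R →+ ℤ_[p]) ((u ^ m : Rˣ) : R) = 0 := by
    unfold lgP
    rw [cP_eq_zero]
    refine ⟨0, fun l => ?_⟩
    change ‖((0 : ℤ_[p]) : ℚ_[p]) / (p : ℚ_[p]) ^ l‖ * (p : ℝ) ^ l ≤ 0
    rw [PadicInt.coe_zero, zero_div, norm_zero, zero_mul]
  rw [h1, smul_zero]

/-- comparison for the norm -/
theorem lgUP_norm (hR : ∀ x y : R, x * y = y * x) (hS : ∀ x y : S, x * y = y * x)
    (hF : FinP p R) (φ : R →+ ℤ_[p]) (ψ : S →+ ℤ_[p]) (τ : R →+ S) (n : ℕ)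
    (hτ : ∀ a, ψ (τ a) = n * φ a) (u : Rˣ) (z : Sˣ)
    (hz : ∀ (e N : ℕ) (f : R), (N : R) * f = (u : R) ^ e - 1 →
      ∃ w : S, (N : S) * (τ f + (N : S) * w) = (z : S) ^ e - 1) :
    lgUP p ψ z = n • lgUP p φ u := by
  obtain ⟨m, hm, h⟩ := hF u
  have hm0 : (m : ℚ) ≠ 0 := Nat.cast_ne_zero.2 hm.ne'
  have key : ∀ l, ∃ (f : R) (w : S), (u : R) ^ (m * p ^ l) - 1 = (p : R) ^ (2 + l) * f ∧
      (z : S) ^ (m * p ^ l) - 1 = (p : S) ^ (2 + l) * (τ f + (p : S) ^ (2 + l) * w) := by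
    intro l
    obtain ⟨f, hf⟩ := h.pow_eq p l
    rw [Units.val_pow_eq_pow_val, ← pow_mul] at hf
    have h1 : ((p ^ (2 + l) : ℕ) : R) * f = (u : R) ^ (m * p ^ l) - 1 := by
      rw [hf]
      push_cast
      abel
    obtain ⟨w, hw⟩ := hz (m * p ^ l) (p ^ (2 + l)) f h1
    push_cast at h1 hw
    exact ⟨f, w, h1.symm, hw.symm⟩
  have hz1 : One2 p ((z ^ m : Sˣ) : S) := by
    obtain ⟨f, w, h1, h2⟩ := key 0
    rw [pow_zero, mul_one, add_zero] at h2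
    refine ⟨τ f + (p : S) ^ 2 * w, ?_⟩
    rw [← h2, Units.val_pow_eq_pow_val]
    abel
  rw [lgUP_eq p hS ψ hm hz1, lgUP_eq p hR φ hm h, smul_comm]
  congr 1
  unfold lgP
  rw [← map_nsmul, ← sub_eq_zero, ← map_sub, cP_eq_zero]
  refine ⟨1, fun l => ?_⟩
  change ‖((ψ (((z ^ m : Sˣ) : S) ^ p ^ l - 1) : ℤ_[p]) : ℚ_[p]) / (p : ℚ_[p]) ^ l -
    n • (((φ (((u ^ m : Rˣ) : R) ^ p ^ l - 1) : ℤ_[p]) : ℚ_[p]) / (p : ℚ_[p]) ^ l)‖ * (p : ℝ) ^ l ≤ 1
  obtain ⟨f, w, h1, h2⟩ := key l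
  have e1 : ((u ^ m : Rˣ) : R) ^ p ^ l - 1 = (p : R) ^ (2 + l) * f := by
    rw [Units.val_pow_eq_pow_val, ← pow_mul, h1]
  have e2 : ((z ^ m : Sˣ) : S) ^ p ^ l - 1 = (p : S) ^ (2 + l) * (τ f + (p : S) ^ (2 + l) * w) := by
    rw [Units.val_pow_eq_pow_val, ← pow_mul, h2]
  rw [e1, e2, map_pmulP, map_pmulP, map_add, map_pmulP, hτ]
  have hp0 : (p : ℚ_[p]) ≠ 0 := Nat.cast_ne_zero.2 hp.out.ne_zero
  have h7 : (((p : ℤ_[p]) ^ (2 + l) * ((n : ℤ_[p]) * φ f + (p : ℤ_[p]) ^ (2 + l) * ψ w) : ℤ_[p]) : ℚ_[p]) /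
      (p : ℚ_[p]) ^ l - n • ((((p : ℤ_[p]) ^ (2 + l) * φ f : ℤ_[p]) : ℚ_[p]) / (p : ℚ_[p]) ^ l) =
      (p : ℚ_[p]) ^ l * (((p : ℤ_[p]) ^ 4 * ψ w : ℤ_[p]) : ℚ_[p]) := by
    rw [nsmul_eq_mul]
    push_cast
    have h8 : (p : ℚ_[p]) ^ (2 + l) = (p : ℚ_[p]) ^ 2 * (p : ℚ_[p]) ^ l := by rw [pow_add]
    rw [h8]
    field_simp
    ring
  rw [h7, norm_mul, norm_pow_p, mul_comm, ← mul_assoc, mul_inv_cancel₀ (pos_p p l).ne', one_mul]
  exact PadicInt.norm_le_one _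

end LgU

section MA

set_option linter.unusedSectionVars false

variable {A : Type w} [CommRing A] {C : Type u} [Group C]

theorem ma_commA (hC : ∀ a b : C, a * b = b * a) (x y : MonoidAlgebra A C) : x * y = y * x := by
  induction x using MonoidAlgebra.induction_linear with
  | zero => rw [zero_mul, mul_zero]
  | add a b ha hb => rw [add_mul, mul_add, ha, hb]
  | single s t =>
    induction y using MonoidAlgebra.induction_linear with
    | zero => rw [zero_mul, mul_zero]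
    | add a b ha hb => rw [add_mul, mul_add, ha, hb]
    | single s' t' =>
      rw [MonoidAlgebra.single_mul_single, MonoidAlgebra.single_mul_single, hC, mul_comm t]

/-- the coefficient at `d` -/
def cfA (d : C) : MonoidAlgebra A C →+ A where
  toFun x := x.coeff d
  map_zero' := rfl
  map_add' _ _ := rfl

theorem cfA_apply (d : C) (x : MonoidAlgebra A C) : cfA d x = x.coeff d := rfl

theorem coeff_natCast_mul (n : ℕ) (x : MonoidAlgebra A C) (g : C) :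
    ((n : MonoidAlgebra A C) * x).coeff g = (n : A) * x.coeff g := by
  rw [← nsmul_eq_mul, MonoidAlgebra.coeff_smul_apply, nsmul_eq_mul]

theorem ma_dvdA {n : ℕ} {x : MonoidAlgebra A C}
    (h : ∀ g : C, (n : A) ∣ x.coeff g) : ∃ y, x = (n : MonoidAlgebra A C) * y := by
  classical
  choose f hf using h
  refine ⟨MonoidAlgebra.ofCoeff (Finsupp.onFinset x.coeff.support (fun g => if x.coeff g = 0 then 0 else f g) ?_), ?_⟩
  · intro g hg
    rw [Finsupp.mem_support_iff]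
    intro h0
    exact hg (if_pos h0)
  · apply MonoidAlgebra.coeff_injective
    ext g
    rw [coeff_natCast_mul]
    change _ = (n : A) * (if x.coeff g = 0 then 0 else f g)
    by_cases h0 : x.coeff g = 0
    · rw [if_pos h0, mul_zero, h0]
    · rw [if_neg h0, ← hf g]

/-- the map of units induced by a homomorphism of groups -/
noncomputable def mUA {C' : Type v} [Group C'] (j : C →* C') :
    (MonoidAlgebra A C)ˣ →* (MonoidAlgebra A C')ˣ :=
  Units.map (MonoidAlgebra.mapDomainRingHom A j).toMonoidHom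

end MA

section Zp

variable (p : ℕ) [hp : Fact p.Prime]

theorem finite_quot (n : ℕ) (hn : n ≠ 0) : Finite (ℤ_[p] ⧸ Ideal.span {(n : ℤ_[p])}) := by
  have hn0 : (n : ℤ_[p]) ≠ 0 := Nat.cast_ne_zero.2 hn
  have h1 : Ideal.span {(n : ℤ_[p])} = Ideal.span {(p : ℤ_[p]) ^ (n : ℤ_[p]).valuation} := by
    rw [Ideal.span_singleton_eq_span_singleton]
    exact (Associated.symm ⟨PadicInt.unitCoeff hn0, by
      rw [mul_comm]
      exact (PadicInt.unitCoeff_spec hn0).symm⟩)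
  rw [h1, ← PadicInt.ker_toZModPow]
  have h2 : NeZero (p ^ (n : ℤ_[p]).valuation) := ⟨pow_ne_zero _ hp.out.ne_zero⟩
  exact Finite.of_injective _ (RingHom.kerLift_injective (PadicInt.toZModPow (n : ℤ_[p]).valuation))

variable {C : Type u} [Group C]

theorem exists_pow_eqP [Finite C] {n : ℕ} (hn : n ≠ 0) (u : (MonoidAlgebra ℤ_[p] C)ˣ) :
    ∃ (m : ℕ) (a : MonoidAlgebra ℤ_[p] C), 0 < m ∧
      ((u ^ m : (MonoidAlgebra ℤ_[p] C)ˣ) : MonoidAlgebra ℤ_[p] C) = 1 + (n : MonoidAlgebra ℤ_[p] C) * a := by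
  obtain ⟨m, Z, hm, hZ⟩ := powMod_of_finite ℤ_[p] C (finite_quot p) n hn 1
    (Units.map (Matrix.scalar (Fin 1)).toMonoidHom u)
  refine ⟨m, Z 0 0, hm, ?_⟩
  rw [← map_pow] at hZ
  have h1 := congrFun (congrFun hZ 0) 0
  have h2 : ((Units.map (Matrix.scalar (Fin 1)).toMonoidHom (u ^ m) :
      (Matrix (Fin 1) (Fin 1) (MonoidAlgebra ℤ_[p] C))ˣ) :
      Matrix (Fin 1) (Fin 1) (MonoidAlgebra ℤ_[p] C)) 0 0 =
      ((u ^ m : (MonoidAlgebra ℤ_[p] C)ˣ) : MonoidAlgebra ℤ_[p] C) := by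
    change Matrix.scalar (Fin 1) ((u ^ m : (MonoidAlgebra ℤ_[p] C)ˣ) : MonoidAlgebra ℤ_[p] C) 0 0 = _
    rw [Matrix.scalar_apply, Matrix.diagonal_apply_eq]
  rw [h2, Matrix.add_apply, Matrix.one_apply_eq, Matrix.smul_apply, natCast_zsmul,
    nsmul_eq_mul] at h1
  exact h1

theorem finPP [Finite C] : FinP p (MonoidAlgebra ℤ_[p] C) := by
  intro u
  obtain ⟨m, a, hm, h⟩ := exists_pow_eqP p (n := p ^ 2) (pow_ne_zero 2 hp.out.ne_zero) u
  refine ⟨m, hm, a, ?_⟩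
  rw [h]
  push_cast
  rfl

/-- the logarithm of a unit of `ℤ_[p][C]` at `d` -/
noncomputable def TP (u : (MonoidAlgebra ℤ_[p] C)ˣ) (d : C) : ApP p := lgUP p (cfA d) u

variable [Finite C]

theorem TP_one (hC : ∀ a b : C, a * b = b * a) (d : C) :
    TP p (1 : (MonoidAlgebra ℤ_[p] C)ˣ) d = 0 := lgUP_one p (ma_commA hC) _

theorem TP_mul (hC : ∀ a b : C, a * b = b * a)
    (u v : (MonoidAlgebra ℤ_[p] C)ˣ) (d : C) : TP p (u * v) d = TP p u d + TP p v d :=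
  lgUP_mul p (ma_commA hC) (finPP p) _ u v

theorem TP_pow (hC : ∀ a b : C, a * b = b * a)
    (u : (MonoidAlgebra ℤ_[p] C)ˣ) (d : C) (n : ℕ) : TP p (u ^ n) d = n • TP p u d := by
  induction n with
  | zero => rw [pow_zero, TP_one p hC, zero_smul]
  | succ n ih => rw [pow_succ, TP_mul p hC, ih, succ_nsmul]

theorem TP_inv (hC : ∀ a b : C, a * b = b * a)
    (u : (MonoidAlgebra ℤ_[p] C)ˣ) (d : C) : TP p u⁻¹ d = - TP p u d := by
  have h := TP_mul p hC u⁻¹ u d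
  rw [inv_mul_cancel, TP_one p hC] at h
  exact (neg_eq_of_add_eq_zero_left h.symm).symm

theorem TP_map {C' : Type v} [Group C'] (hC : ∀ a b : C, a * b = b * a)
    (hC' : ∀ a b : C', a * b = b * a) (j : C →* C') (hj : Function.Injective j)
    (u : (MonoidAlgebra ℤ_[p] C)ˣ) (d : C) : TP p (mUA j u) (j d) = TP p u d := by
  refine (lgUP_comp p (ma_commA hC) (ma_commA hC') (finPP p) _ _ u).trans ?_
  change lgUP p _ u = lgUP p _ u
  congr 1
  refine AddMonoidHom.ext fun x => ?_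
  change (MonoidAlgebra.mapDomain j x).coeff (j d) = x.coeff d
  rw [MonoidAlgebra.coeff_mapDomain, Finsupp.mapDomain_apply hj]

theorem TP_map_ne {C' : Type v} [Group C'] (hC : ∀ a b : C, a * b = b * a)
    (hC' : ∀ a b : C', a * b = b * a) (j : C →* C')
    (u : (MonoidAlgebra ℤ_[p] C)ˣ) (d : C') (hd : ∀ c, j c ≠ d) :
    TP p (mUA j u) d = 0 := by
  refine (lgUP_comp p (ma_commA hC) (ma_commA hC') (finPP p) _ _ u).trans ?_
  have h : (cfA d).comp (MonoidAlgebra.mapDomainRingHom ℤ_[p] j).toAddMonoidHom = 0 := by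
    refine AddMonoidHom.ext fun x => ?_
    change (MonoidAlgebra.mapDomain j x).coeff d = 0
    rw [MonoidAlgebra.coeff_mapDomain]
    apply Finsupp.mapDomain_of_notMem_range
    rintro ⟨c, hc⟩
    exact hd c hc
  rw [h]
  exact lgUP_zero p (ma_commA hC) (finPP p) u

/-- **Detection.** -/
theorem TP_detect (hC : ∀ a b : C, a * b = b * a)
    (u : (MonoidAlgebra ℤ_[p] C)ˣ) (h : ∀ d, TP p u d = 0) : ∃ m : ℕ, 0 < m ∧ u ^ m = 1 := by
  obtain ⟨m, hm, h1⟩ := finPP (C := C) p u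
  refine ⟨m, hm, ?_⟩
  have h2 : ∀ d : C, lgP p (cfA d) ((u ^ m : (MonoidAlgebra ℤ_[p] C)ˣ) : MonoidAlgebra ℤ_[p] C) = 0 := by
    intro d
    have h3 := h d
    unfold TP at h3
    rw [lgUP_eq p (ma_commA hC) _ hm h1] at h3
    exact (smul_eq_zero.1 h3).resolve_left (inv_ne_zero (Nat.cast_ne_zero.2 hm.ne'))
  have h3 := lgP_detect p (fun d : C => cfA d) (fun a ha => ma_dvdA ha) h1 h2
  apply Units.ext
  rw [Units.val_one]
  rw [← sub_eq_zero]
  apply MonoidAlgebra.coeff_injective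
  ext d
  change _ = (0 : ℤ_[p])
  set y := (((u ^ m : (MonoidAlgebra ℤ_[p] C)ˣ) : MonoidAlgebra ℤ_[p] C) - 1).coeff d with hy
  have h4 : ∀ k : ℕ, (p : ℤ_[p]) ^ k ∣ y := by
    intro k
    obtain ⟨a, ha⟩ := h3 k
    have h5 : (p : MonoidAlgebra ℤ_[p] C) ^ (2 + k) = ((p ^ (2 + k) : ℕ) : MonoidAlgebra ℤ_[p] C) := by
      push_cast
      rfl
    rw [hy, ha, add_sub_cancel_left, h5, coeff_natCast_mul]
    push_cast
    exact (pow_dvd_pow _ (Nat.le_add_left k 2)).trans (Dvd.intro _ rfl)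
  by_contra hne
  obtain ⟨k, hk⟩ : ∃ k : ℕ, (1 / (p : ℝ)) ^ k < ‖y‖ := by
    refine exists_pow_lt_of_lt_one (norm_pos_iff.2 hne) ?_
    rw [div_lt_one (by exact_mod_cast hp.out.pos)]
    exact_mod_cast hp.out.one_lt
  obtain ⟨b, hb⟩ := h4 k
  rw [hb, norm_mul, norm_pow, PadicInt.norm_p] at hk
  have h5 := PadicInt.norm_le_one b
  have h6 : (0 : ℝ) ≤ (p : ℝ)⁻¹ ^ k := by positivity
  rw [one_div] at hk
  nlinarith

/-- the logarithm as a homomorphism -/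
noncomputable def THP (hC : ∀ a b : C, a * b = b * a) :
    Additive (MonoidAlgebra ℤ_[p] C)ˣ →+ (C → ApP p) where
  toFun u d := TP p u.toMul d
  map_zero' := by
    funext d
    exact TP_one p hC d
  map_add' u v := by
    funext d
    exact TP_mul p hC _ _ d

theorem THP_apply (hC : ∀ a b : C, a * b = b * a)
    (u : (MonoidAlgebra ℤ_[p] C)ˣ) (d : C) : THP p hC (Additive.ofMul u) d = TP p u d := rfl

end Zp

end Pool.Agent.H8.CZ
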